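import Mathlib

namespace Pool.Agent.H.MP_523900_gt

open Set Filter Topology MeasureTheory
open scoped ENNReal NNReal

/-- Euclidean three-space. -/
abbrev E := EuclideanSpace ℝ (Fin 3)

/-- The length of the path `γ` on `[0,1]` (total variation). -/
noncomputable def len (γ : ℝ → E) : ℝ≥0∞ := eVariationOn γ (Icc 0 1)

/-- A continuous path on `[0,1]` lying in `S`. -/
def IsCurve (S : Set E) (γ : ℝ → E) : Prop := ContinuousOn γ (Icc 0 1) ∧ MapsTo γ (Icc 0 1) S

/-- Intrinsic distance in `S`. -/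
noncomputable def dS (S : Set E) (x y : E) : ℝ≥0∞ :=
  ⨅ (γ : ℝ → E) (_ : IsCurve S γ ∧ γ 0 = x ∧ γ 1 = y), len γ

/-- Every point of `S` is within intrinsic distance `ε` of a point of `γ`. -/
def EpsDense (S : Set E) (ε : ℝ) (γ : ℝ → E) : Prop :=
  ∀ x ∈ S, ∃ t ∈ Icc (0 : ℝ) 1, dS S x (γ t) ≤ ENNReal.ofReal ε

/-- The infimum of the lengths of rectifiable `ε`-dense curves in `S`. -/
noncomputable def LS (S : Set E) (ε : ℝ) : ℝ≥0∞ :=
  ⨅ (γ : ℝ → E) (_ : IsCurve S γ ∧ len γ ≠ ⊤ ∧ EpsDense S ε γ), len γ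

/-- a curve from `x` to `y` of length at most `l` passing through `X` -/
def Reach (S : Set E) (x y : E) (l : ℝ≥0∞) (X : Set E) : Prop :=
  ∃ γ : ℝ → E, Continuous γ ∧ MapsTo γ (Icc 0 1) S ∧ γ 0 = x ∧ γ 1 = y ∧ len γ ≤ l ∧
    X ⊆ γ '' Icc 0 1

theorem Reach.mono {S : Set E} {x y : E} {l l' : ℝ≥0∞} {X X' : Set E} (h : Reach S x y l X)
    (hl : l ≤ l') (hX : X' ⊆ X) : Reach S x y l' X' := by
  obtain ⟨γ, h1, h2, h3, h4, h5, h6⟩ := h
  exact ⟨γ, h1, h2, h3, h4, h5.trans hl, hX.trans h6⟩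

theorem Reach.dS_le {S : Set E} {x y : E} {l : ℝ≥0∞} {X : Set E} (h : Reach S x y l X) :
    dS S x y ≤ l := by
  obtain ⟨γ, h1, h2, h3, h4, h5, -⟩ := h
  exact (iInf₂_le γ ⟨⟨h1.continuousOn, h2⟩, h3, h4⟩).trans h5

theorem edist_le_dS (S : Set E) (x y : E) : edist x y ≤ dS S x y := by
  refine le_iInf₂ fun γ h => ?_
  rw [← h.2.1, ← h.2.2]
  exact eVariationOn.edist_le γ (by simp) (by simp)

theorem Reach.trans {S : Set E} {x y z : E} {l l' : ℝ≥0∞} {X X' : Set E} (h : Reach S x y l X)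
    (h' : Reach S y z l' X') : Reach S x z (l + l') (X ∪ X') := by
  obtain ⟨f, f1, f2, f3, f4, f5, f6⟩ := h
  obtain ⟨g, g1, g2, g3, g4, g5, g6⟩ := h'
  classical
  set γ : ℝ → E := fun t => if t ≤ 1 / 2 then f (2 * t) else g (2 * t - 1) with hγ
  have e1 : ∀ t, t ≤ 1 / 2 → γ t = f (2 * t) := fun t ht => by simp only [hγ, if_pos ht]
  have e2 : ∀ t, 1 / 2 ≤ t → γ t = g (2 * t - 1) := fun t ht => by
    rcases ht.eq_or_lt with rfl | ht
    · rw [e1 _ le_rfl]
      norm_num [f4, g3]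
    · simp only [hγ, if_neg (not_le.2 ht)]
  refine ⟨γ, ?_, ?_, ?_, ?_, ?_, ?_⟩
  · refine Continuous.if_le (by fun_prop) (by fun_prop) continuous_id continuous_const ?_
    rintro t rfl
    norm_num [f4, g3]
  · intro t ht
    rcases le_total t (1 / 2) with h | h
    · rw [e1 t h]
      exact f2 ⟨by linarith [ht.1], by linarith⟩
    · rw [e2 t h]
      exact g2 ⟨by linarith, by linarith [ht.2]⟩
  · rw [e1 0 (by norm_num), mul_zero, f3]
  · rw [e2 1 (by norm_num)]
    norm_num [g4]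
  · have a := eVariationOn.Icc_add_Icc γ (s := univ) (a := 0) (b := 1 / 2) (c := 1)
      (by norm_num) (by norm_num) (mem_univ _)
    simp only [univ_inter] at a
    unfold len
    rw [← a]
    apply add_le_add
    · rw [eVariationOn.congr (g := f ∘ fun t => 2 * t) (fun t ht => e1 t ht.2)]
      refine le_trans (eVariationOn.comp_le_of_monotoneOn f _ ?_ ?_) f5
      · intro a _ b _ hab
        dsimp only
        linarith
      · intro t ht
        exact ⟨by linarith [ht.1], by linarith [ht.2]⟩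
    · rw [eVariationOn.congr (g := g ∘ fun t => 2 * t - 1) (fun t ht => e2 t ht.1)]
      refine le_trans (eVariationOn.comp_le_of_monotoneOn g _ ?_ ?_) g5
      · intro a _ b _ hab
        dsimp only
        linarith
      · intro t ht
        exact ⟨by linarith [ht.1], by linarith [ht.2]⟩
  · rintro p (hp | hp)
    · obtain ⟨t, ht, rfl⟩ := f6 hp
      refine ⟨t / 2, ⟨by linarith [ht.1], by linarith [ht.2]⟩, ?_⟩
      rw [e1 _ (by linarith [ht.2])]
      congr 1
      ring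
    · obtain ⟨t, ht, rfl⟩ := g6 hp
      refine ⟨(t + 1) / 2, ⟨by linarith [ht.1], by linarith [ht.2]⟩, ?_⟩
      rw [e2 _ (by linarith [ht.1])]
      congr 1
      ring

theorem reach_of_lip {S : Set E} (f : ℝ → E) {c : ℝ} (hc : 0 ≤ c)
    (h : ∀ s ∈ Icc (0 : ℝ) 1, ∀ t ∈ Icc (0 : ℝ) 1, ‖f s - f t‖ ≤ c * |s - t|)
    (hm : MapsTo f (Icc 0 1) S) : Reach S (f 0) (f 1) (ENNReal.ofReal c) (f '' Icc 0 1) := by
  have hl : LipschitzOnWith c.toNNReal f (Icc 0 1) := by
    apply LipschitzOnWith.of_dist_le_mul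
    intro s hs t ht
    rw [dist_eq_norm, Real.dist_eq, Real.coe_toNNReal _ hc]
    exact h s hs t ht
  set q : ℝ → ℝ := fun t => max 0 (min t 1) with hq
  have q1 : ∀ t, q t ∈ Icc (0 : ℝ) 1 := fun t =>
    ⟨le_max_left _ _, max_le zero_le_one (min_le_right _ _)⟩
  have q2 : ∀ t ∈ Icc (0 : ℝ) 1, q t = t := fun t ht => by
    simp only [hq, min_eq_left ht.2, max_eq_right ht.1]
  refine ⟨f ∘ q, hl.continuousOn.comp_continuous (by fun_prop) q1, fun t _ => hm (q1 t), ?_, ?_,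
    ?_, ?_⟩
  · simp [q2 0 (by simp)]
  · simp [q2 1 (by simp)]
  · unfold len
    rw [eVariationOn.congr (g := f ∘ id) (fun t ht => by simp [q2 t ht])]
    refine (hl.comp_eVariationOn_le (mapsTo_id _)).trans ?_
    have := MonotoneOn.eVariationOn_le (f := id) (s := univ) (monotone_id.monotoneOn _)
      (mem_univ (0 : ℝ)) (mem_univ 1)
    simp only [univ_inter, id, sub_zero, ENNReal.ofReal_one] at this
    calc (c.toNNReal : ℝ≥0∞) * eVariationOn id (Icc (0 : ℝ) 1) ≤ c.toNNReal * 1 := by gcongr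
      _ = ENNReal.ofReal c := by rw [mul_one]; rfl
  · rintro _ ⟨t, ht, rfl⟩
    exact ⟨t, ht, by simp [q2 t ht]⟩

/-- shear -/
def T (α β γ : ℝ) (w : ℂ) : ℂ := ⟨α * w.re + β * w.im, γ * w.im⟩

theorem T_smul (α β γ t : ℝ) (w : ℂ) : T α β γ (t • w) = t • T α β γ w := by
  apply Complex.ext <;> simp [T] <;> ring

theorem T_sub (α β γ : ℝ) (w z : ℂ) : T α β γ (w - z) = T α β γ w - T α β γ z := by
  apply Complex.ext <;> simp [T] <;> ring

theorem T_le {α β γ : ℝ} (ha : 0 ≤ α) (hg : 0 ≤ γ) (w : ℂ) :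
    ‖T α β γ w‖ ≤ α * |w.re| + (|β| + γ) * |w.im| := by
  refine (Complex.norm_le_abs_re_add_abs_im _).trans ?_
  simp only [T]
  have := abs_add_le (α * w.re) (β * w.im)
  rw [abs_mul, abs_mul, abs_of_nonneg ha] at this
  rw [abs_mul, abs_of_nonneg hg]
  linarith

theorem reach_seg {S : Set E} {φ : ℂ → E} {W : Set ℂ} (hW : Convex ℝ W) (hS : ∀ u, φ u ∈ S)
    {α β γ : ℝ} (h : ∀ u ∈ W, ∀ v ∈ W, ‖φ u - φ v‖ ≤ ‖T α β γ (u - v)‖) {p q : ℂ} (hp : p ∈ W)
    (hq : q ∈ W) : Reach S (φ p) (φ q) (ENNReal.ofReal ‖T α β γ (q - p)‖) (φ '' segment ℝ p q) := by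
  have m : ∀ t ∈ Icc (0 : ℝ) 1, p + t • (q - p) ∈ W := fun t ht => hW.add_smul_sub_mem hp hq ht
  have := reach_of_lip (S := S) (fun t : ℝ => φ (p + t • (q - p)))
    (norm_nonneg (T α β γ (q - p))) (fun s hs t ht => by
      refine (h _ (m s hs) _ (m t ht)).trans (le_of_eq ?_)
      rw [add_sub_add_left_eq_sub, ← sub_smul, T_smul, norm_smul, Real.norm_eq_abs, mul_comm])
    (fun t _ => hS _)
  simp only [zero_smul, add_zero, one_smul, add_sub_cancel] at this
  refine this.mono le_rfl ?_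
  rw [segment_eq_image', image_image]

/-- a closed box -/
def box (a b c d : ℝ) : Set ℂ := {u | a ≤ u.re ∧ u.re ≤ b ∧ c ≤ u.im ∧ u.im ≤ d}

theorem box_convex (a b c d : ℝ) : Convex ℝ (box a b c d) := by
  intro u hu v hv s t hs ht hst
  obtain ⟨u1, u2, u3, u4⟩ := hu
  obtain ⟨v1, v2, v3, v4⟩ := hv
  obtain rfl : t = 1 - s := by linarith
  simp only [box, mem_setOf_eq, Complex.add_re, Complex.add_im, Complex.smul_re, Complex.smul_im,
    smul_eq_mul]
  refine ⟨?_, ?_, ?_, ?_⟩ <;> nlinarith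

theorem zigzag {S : Set E} {φ : ℂ → E} (hS : ∀ u, φ u ∈ S) {α β γ a b c d s : ℝ} (ha : 0 ≤ α)
    (hg : 0 ≤ γ) (hab : a ≤ b) (hs : 0 ≤ s)
    (h : ∀ u ∈ box a b c d, ∀ v ∈ box a b c d, ‖φ u - φ v‖ ≤ ‖T α β γ (u - v)‖) (n : ℕ)
    (hn : c + n * s ≤ d) : ∃ x, (x = a ∨ x = b) ∧
      Reach S (φ ⟨a, c⟩) (φ ⟨x, c + n * s⟩) (ENNReal.ofReal (n * (α * (b - a) + (|β| + γ) * s)))
        {z | ∃ k : ℕ, k < n ∧ ∃ y, a ≤ y ∧ y ≤ b ∧ z = φ ⟨y, c + k * s⟩} := by
  induction n with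
  | zero =>
    have hd : c ≤ d := by simpa using hn
    have m : (⟨a, c⟩ : ℂ) ∈ box a b c d := ⟨le_rfl, hab, le_rfl, hd⟩
    refine ⟨a, Or.inl rfl, ?_⟩
    have := reach_seg (box_convex a b c d) hS h m m
    simp only [Nat.cast_zero, zero_mul, add_zero]
    refine this.mono (by simp [T, show (⟨0, 0⟩ : ℂ) = 0 from rfl]) ?_
    rintro z ⟨k, hk, -⟩
    omega
  | succ n ih =>
    push_cast at hn
    have hns : (0 : ℝ) ≤ n * s := by positivity
    obtain ⟨x, hx, r⟩ := ih (by nlinarith)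
    have m1 : (⟨x, c + n * s⟩ : ℂ) ∈ box a b c d := by
      rcases hx with rfl | rfl
      · exact ⟨le_rfl, hab, by simpa using hns, by dsimp only; nlinarith⟩
      · exact ⟨hab, le_rfl, by simpa using hns, by dsimp only; nlinarith⟩
    have m2 : (⟨a + b - x, c + n * s⟩ : ℂ) ∈ box a b c d := by
      rcases hx with rfl | rfl
      · exact ⟨by dsimp only; linarith, by dsimp only; linarith, m1.2.2.1, m1.2.2.2⟩
      · exact ⟨by dsimp only; linarith, by dsimp only; linarith, m1.2.2.1, m1.2.2.2⟩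
    have m3 : (⟨a + b - x, c + (n + 1) * s⟩ : ℂ) ∈ box a b c d :=
      ⟨m2.1, m2.2.1, by dsimp only; nlinarith, hn⟩
    have r1 := reach_seg (box_convex a b c d) hS h m1 m2
    have r2 := reach_seg (box_convex a b c d) hS h m2 m3
    refine ⟨a + b - x, by rcases hx with rfl | rfl <;> simp, ?_⟩
    push_cast
    refine ((r.trans r1).trans r2).mono ?_ ?_
    · have k1 := T_le (β := β) ha hg ((⟨a + b - x, c + n * s⟩ : ℂ) - ⟨x, c + n * s⟩)
      have k2 := T_le (β := β) ha hg ((⟨a + b - x, c + (n + 1) * s⟩ : ℂ) - ⟨a + b - x, c + n * s⟩)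
      simp only [Complex.sub_re, Complex.sub_im, sub_self, abs_zero, mul_zero, add_zero,
        zero_add] at k1 k2
      have e1 : |a + b - x - x| = b - a := by
        rcases hx with rfl | rfl
        · rw [abs_of_nonneg (by linarith)]
          ring
        · rw [abs_of_nonpos (by linarith)]
          ring
      have e2 : |c + (n + 1) * s - (c + n * s)| = s := by
        rw [abs_of_nonneg (by nlinarith)]
        ring
      rw [e1] at k1
      rw [e2] at k2
      have p0 : 0 ≤ α * (b - a) + (|β| + γ) * s := by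
        have := sub_nonneg.2 hab
        positivity
      rw [← ENNReal.ofReal_add (by positivity) (norm_nonneg _),
        ← ENNReal.ofReal_add (by positivity) (norm_nonneg _)]
      apply ENNReal.ofReal_le_ofReal
      nlinarith
    · rintro z ⟨k, hk, y, y1, y2, rfl⟩
      rcases Nat.lt_succ_iff_lt_or_eq.1 hk with hk | rfl
      · exact Or.inl (Or.inl ⟨k, hk, y, y1, y2, rfl⟩)
      · refine Or.inl (Or.inr ⟨_, ?_, rfl⟩)
        have hy : y ∈ segment ℝ x (a + b - x) := by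
          rw [segment_eq_uIcc]
          rcases hx with rfl | rfl
          · exact mem_uIcc.2 (Or.inl ⟨y1, by linarith⟩)
          · exact mem_uIcc.2 (Or.inr ⟨by linarith, y2⟩)
        obtain ⟨p, q, hp, hq, hpq, rfl⟩ := hy
        refine ⟨p, q, hp, hq, hpq, ?_⟩
        apply Complex.ext
        · simp
        · simp only [Complex.add_im, Complex.smul_im, smul_eq_mul]
          rw [← add_mul, hpq, one_mul]

end Pool.Agent.H.MP_523900_gt
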