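import Pool.Agent.H.MP_523900_gt.A

namespace Pool.Agent.H.MP_523900_gt

open Set Filter Topology MeasureTheory
open scoped ENNReal NNReal

/-- `X` can be approximated by loops at `p` of length `c / ε + O(1)` -/
def Cov (S : Set E) (p : E) (X : Set E) (c : ℝ) : Prop :=
  ∃ C : ℝ, 0 ≤ C ∧ ∀ᶠ ε in 𝓝[>] (0 : ℝ), ∃ Y, Reach S p p (ENNReal.ofReal (c / ε + C)) Y ∧
    ∀ x ∈ X, ∃ y ∈ Y, dS S x y ≤ ENNReal.ofReal ε

/-- rectifiable connectedness -/
def Conn (S : Set E) : Prop :=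
  ∀ x ∈ S, ∀ y ∈ S, ∃ D : ℝ, 0 ≤ D ∧ Reach S x y (ENNReal.ofReal D) ∅

theorem Cov.mono {S : Set E} {p : E} {X X' : Set E} {c c' : ℝ} (h : Cov S p X c) (hX : X' ⊆ X)
    (hc : c ≤ c') : Cov S p X' c' := by
  obtain ⟨C, h0, h⟩ := h
  refine ⟨C, h0, ?_⟩
  filter_upwards [h, self_mem_nhdsWithin] with ε ⟨Y, h1, h2⟩ (he : 0 < ε)
  refine ⟨Y, h1.mono (ENNReal.ofReal_le_ofReal ?_) le_rfl, fun x hx => h2 x (hX hx)⟩
  gcongr

theorem Cov.union {S : Set E} {p : E} {X X' : Set E} {c c' : ℝ} (h : Cov S p X c)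
    (h' : Cov S p X' c') (hc : 0 ≤ c) (hc' : 0 ≤ c') : Cov S p (X ∪ X') (c + c') := by
  obtain ⟨C, h0, h⟩ := h
  obtain ⟨C', h0', h'⟩ := h'
  refine ⟨C + C', by positivity, ?_⟩
  filter_upwards [h, h', self_mem_nhdsWithin] with ε ⟨Y, h1, h2⟩ ⟨Y', h1', h2'⟩ (he : 0 < ε)
  refine ⟨Y ∪ Y', (h1.trans h1').mono (le_of_eq ?_) le_rfl, ?_⟩
  · rw [← ENNReal.ofReal_add (by positivity) (by positivity)]
    congr 1
    ring
  · rintro x (hx | hx)
    · obtain ⟨y, hy, k⟩ := h2 x hx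
      exact ⟨y, Or.inl hy, k⟩
    · obtain ⟨y, hy, k⟩ := h2' x hx
      exact ⟨y, Or.inr hy, k⟩

theorem Cov.move {S : Set E} (hS : Conn S) {p q : E} (hp : p ∈ S) (hq : q ∈ S) {X : Set E} {c : ℝ}
    (h : Cov S p X c) (hc : 0 ≤ c) : Cov S q X c := by
  obtain ⟨C, h0, h⟩ := h
  obtain ⟨D, d0, d1⟩ := hS q hq p hp
  obtain ⟨D', d0', d1'⟩ := hS p hp q hq
  refine ⟨D + C + D', by positivity, ?_⟩
  filter_upwards [h, self_mem_nhdsWithin] with ε ⟨Y, h1, h2⟩ (he : 0 < ε)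
  refine ⟨Y, ((d1.trans h1).trans d1').mono (le_of_eq ?_) (by simp), h2⟩
  rw [← ENNReal.ofReal_add (by positivity) (by positivity),
    ← ENNReal.ofReal_add (by positivity) (by positivity)]
  congr 1
  ring

theorem Cov.sum {S : Set E} (hS : Conn S) {p : E} (hp : p ∈ S) {ι : Type*} (I : Finset ι)
    (X : ι → Set E) (c : ι → ℝ) (hc : ∀ i ∈ I, 0 ≤ c i) (h : ∀ i ∈ I, Cov S p (X i) (c i)) :
    Cov S p (⋃ i ∈ I, X i) (∑ i ∈ I, c i) := by
  classical
  induction I using Finset.induction_on with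
  | empty =>
    obtain ⟨D, d0, d1⟩ := hS p hp p hp
    refine ⟨D, d0, Eventually.of_forall fun ε => ⟨∅, by simpa using d1, by simp⟩⟩
  | insert i I hi ih =>
    rw [Finset.sum_insert hi, Finset.set_biUnion_insert]
    exact (h i (by simp)).union
      (ih (fun j hj => hc j (by simp [hj])) (fun j hj => h j (by simp [hj]))) (hc i (by simp))
      (Finset.sum_nonneg fun j hj => hc j (by simp [hj]))

theorem Cov.upper {S : Set E} {p : E} {c κ : ℝ} (h : Cov S p S c) (hk : 0 < κ) :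
    ∀ᶠ ε in 𝓝[>] (0 : ℝ), ENNReal.ofReal ε * LS S ε ≤ ENNReal.ofReal (c + κ) := by
  obtain ⟨C, h0, h⟩ := h
  have : ∀ᶠ ε in 𝓝[>] (0 : ℝ), ε < κ / (C + 1) :=
    mem_nhdsWithin_of_mem_nhds (Iio_mem_nhds (by positivity))
  filter_upwards [h, this, self_mem_nhdsWithin] with ε ⟨Y, ⟨γ, g1, g2, _, _, g5, g6⟩, h2⟩ h3
    (he : 0 < ε)
  have a : LS S ε ≤ ENNReal.ofReal (c / ε + C) := by
    refine (iInf₂_le γ ⟨⟨g1.continuousOn, g2⟩, ne_top_of_le_ne_top ENNReal.ofReal_ne_top g5,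
      fun x hx => ?_⟩).trans g5
    obtain ⟨y, hy, k⟩ := h2 x hx
    obtain ⟨t, ht, rfl⟩ := g6 hy
    exact ⟨t, ht, k⟩
  calc ENNReal.ofReal ε * LS S ε ≤ ENNReal.ofReal ε * ENNReal.ofReal (c / ε + C) := by gcongr
    _ ≤ ENNReal.ofReal (c + κ) := by
      rw [← ENNReal.ofReal_mul he.le]
      apply ENNReal.ofReal_le_ofReal
      rw [lt_div_iff₀ (by positivity)] at h3
      rw [mul_add, mul_div_cancel₀ _ he.ne']
      nlinarith

theorem cov_square {S : Set E} {φ : ℂ → E} (hS : ∀ u, φ u ∈ S) {α β γ a b h η : ℝ} (ha : 0 < α)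
    (hg : 0 < γ) (hh : 0 < h) (he : 0 < η)
    (H : ∀ u ∈ box (a - η) (a + h + η) b (b + h + η), ∀ v ∈ box (a - η) (a + h + η) b (b + h + η),
      ‖φ u - φ v‖ ≤ ‖T α β γ (u - v)‖) :
    Cov S (φ ⟨a - η, b⟩) (φ '' box a (a + h) b (b + h)) (α * γ * h * (h + 2 * η) / 2) := by
  set w := |β| + γ with hw
  have w0 : 0 < w := by positivity
  refine ⟨3 * (α * (h + 2 * η)) + 2 * (w * (h + η)), by positivity, ?_⟩
  have t1 : ∀ᶠ ε in 𝓝[>] (0 : ℝ), ε < η * γ / 4 :=
    mem_nhdsWithin_of_mem_nhds (Iio_mem_nhds (by positivity))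
  have t2 : ∀ᶠ ε in 𝓝[>] (0 : ℝ), ε < η * γ * α / w :=
    mem_nhdsWithin_of_mem_nhds (Iio_mem_nhds (by positivity))
  filter_upwards [t1, t2, self_mem_nhdsWithin] with ε t1 t2 (e0 : 0 < ε)
  obtain ⟨s, hs⟩ : ∃ s, s = 2 * ε / γ := ⟨_, rfl⟩
  have s0 : 0 < s := by rw [hs]; positivity
  have s1 : s * γ = 2 * ε := by rw [hs]; field_simp
  have s2 : 2 * s ≤ η := by
    apply le_of_mul_le_mul_right _ hg
    nlinarith
  have s3 : |β| * (s / 2) ≤ η * α := by
    apply le_of_mul_le_mul_right _ hg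
    rw [lt_div_iff₀ w0] at t2
    have : |β| * ε ≤ ε * w := by rw [hw]; nlinarith
    nlinarith
  set m := ⌊h / s⌋₊ with hm
  have m1 : (m : ℝ) * s ≤ h := by
    rw [← le_div_iff₀ s0]
    exact Nat.floor_le (by positivity)
  have m2 : h < (m + 1) * s := by
    rw [← div_lt_iff₀ s0]
    exact Nat.lt_floor_add_one _
  have hn : b + ((m + 2 : ℕ) : ℝ) * s ≤ b + h + η := by
    push_cast
    nlinarith
  obtain ⟨x, hx, r⟩ := zigzag hS ha.le hg.le (by linarith) s0.le H (m + 2) hn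
  have n0 : (0 : ℝ) ≤ ((m + 2 : ℕ) : ℝ) * s := by positivity
  have b1 : (⟨x, b + ((m + 2 : ℕ) : ℝ) * s⟩ : ℂ) ∈ box (a - η) (a + h + η) b (b + h + η) := by
    rcases hx with rfl | rfl
    · exact ⟨le_rfl, by dsimp only; linarith, by dsimp only; linarith, hn⟩
    · exact ⟨by dsimp only; linarith, le_rfl, by dsimp only; linarith, hn⟩
  have b2 : (⟨a - η, b⟩ : ℂ) ∈ box (a - η) (a + h + η) b (b + h + η) :=
    ⟨le_rfl, by dsimp only; linarith, le_rfl, by dsimp only; linarith⟩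
  have r1 := reach_seg (box_convex _ _ _ _) hS H b1 b2
  refine ⟨_, (r.trans r1).mono ?_ subset_union_left, ?_⟩
  · have k1 := T_le (β := β) ha.le hg.le ((⟨a - η, b⟩ : ℂ) - ⟨x, b + ((m + 2 : ℕ) : ℝ) * s⟩)
    simp only [Complex.sub_re, Complex.sub_im] at k1
    have e1 : |a - η - x| ≤ h + 2 * η := by
      rw [abs_le]
      constructor <;> linarith [b1.1, b1.2.1]
    have e2 : |b - (b + ((m + 2 : ℕ) : ℝ) * s)| ≤ h + η := by
      rw [abs_le]
      constructor <;> linarith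
    have e3 : a + h + η - (a - η) = h + 2 * η := by ring
    rw [e3, ← ENNReal.ofReal_add (by positivity) (norm_nonneg _)]
    apply ENNReal.ofReal_le_ofReal
    have e4 : (m : ℝ) * (α * (h + 2 * η)) ≤ α * γ * h * (h + 2 * η) / 2 / ε := by
      rw [le_div_iff₀ e0]
      have : 0 ≤ α * (h + 2 * η) * γ := by positivity
      have := mul_le_mul_of_nonneg_left m1 this
      have e5 : ε = s * γ / 2 := by linarith
      rw [e5]
      nlinarith
    have e6 := mul_le_mul_of_nonneg_left e1 ha.le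
    have e7 := mul_le_mul_of_nonneg_left e2 w0.le
    have e8 : w * (((m + 2 : ℕ) : ℝ) * s) ≤ w * (h + η) :=
      mul_le_mul_of_nonneg_left (by linarith) w0.le
    rw [← hw] at k1
    push_cast at e8 k1 e7 ⊢
    nlinarith
  · rintro _ ⟨u, ⟨u1, u2, u3, u4⟩, rfl⟩
    obtain ⟨k, hk, k1⟩ : ∃ k : ℕ, k < m + 2 ∧ |u.im - (b + k * s)| ≤ s / 2 := by
      refine ⟨⌊(u.im - b) / s + 1 / 2⌋₊, ?_, ?_⟩
      · rw [Nat.floor_lt (by have := sub_nonneg.2 u3; positivity)]
        have : (u.im - b) / s < m + 1 := by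
          rw [div_lt_iff₀ s0]
          linarith
        push_cast
        linarith
      · have f1 := Nat.floor_le (a := (u.im - b) / s + 1 / 2)
          (by have := sub_nonneg.2 u3; positivity)
        have f2 := Nat.lt_floor_add_one ((u.im - b) / s + 1 / 2)
        have f3 : (u.im - b) / s * s = u.im - b := by field_simp
        rw [abs_le]
        constructor <;> nlinarith
    obtain ⟨d, hd⟩ : ∃ d, d = u.im - (b + k * s) := ⟨_, rfl⟩
    rw [← hd] at k1
    have d1 : |β * d / α| ≤ η := by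
      rw [abs_div, abs_mul, abs_of_pos ha, div_le_iff₀ ha]
      exact (mul_le_mul_of_nonneg_left k1 (abs_nonneg _)).trans s3
    rw [abs_le] at d1
    have kk : (k : ℝ) ≤ ((m + 2 : ℕ) : ℝ) := by exact_mod_cast hk.le
    have c1 : (⟨u.re + β * d / α, b + k * s⟩ : ℂ) ∈ box (a - η) (a + h + η) b (b + h + η) :=
      ⟨by dsimp only; linarith, by dsimp only; linarith,
        by have : (0 : ℝ) ≤ k * s := by positivity
           dsimp only; linarith, by dsimp only; nlinarith⟩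
    have c2 : u ∈ box (a - η) (a + h + η) b (b + h + η) :=
      ⟨by linarith, by linarith, u3, by linarith⟩
    refine ⟨_, ⟨k, hk, _, c1.1, c1.2.1, rfl⟩, ?_⟩
    refine (reach_seg (box_convex _ _ _ _) hS H c2 c1).dS_le.trans
      (ENNReal.ofReal_le_ofReal ?_)
    refine (Complex.norm_le_abs_re_add_abs_im _).trans ?_
    have z1 : (T α β γ (⟨u.re + β * d / α, b + k * s⟩ - u)).re = 0 := by
      simp only [T, Complex.sub_re, Complex.sub_im]
      rw [show b + k * s - u.im = -d by linarith]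
      field_simp
      ring
    have z2 : (T α β γ (⟨u.re + β * d / α, b + k * s⟩ - u)).im = -(γ * d) := by
      simp only [T, Complex.sub_re, Complex.sub_im]
      rw [show b + k * s - u.im = -d by linarith]
      ring
    rw [z1, z2, abs_zero, zero_add, abs_neg, abs_mul, abs_of_pos hg]
    nlinarith

end Pool.Agent.H.MP_523900_gt
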