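import Pool.Agent.H.MP_523900_gt.B

namespace Pool.Agent.H.MP_523900_gt

open Set Filter Topology MeasureTheory Metric
open scoped ENNReal NNReal

theorem meas_le {ι X Y : Type*} [MetricSpace X] [MeasurableSpace X] [BorelSpace X]
    [MetricSpace Y] [MeasurableSpace Y] [BorelSpace Y] (φ : ι → Y) (f : ι → X) (W : Set ι)
    {c : ℝ} (hc : 0 ≤ c) (h : ∀ u ∈ W, ∀ v ∈ W, dist (φ u) (φ v) ≤ c * dist (f u) (f v)) :
    μHE[2] (φ '' W) ≤ ENNReal.ofReal (c ^ 2) * μHE[2] (f '' W) := by
  rcases W.eq_empty_or_nonempty with rfl | ⟨w, hw⟩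
  · simp
  haveI : Nonempty ι := ⟨w⟩
  set g : X → Y := fun x => φ (Function.invFunOn f W x) with hg
  have k : ∀ u ∈ W, g (f u) = φ u := fun u hu => by
    have a1 := Function.invFunOn_mem (f := f) (s := W) ⟨u, hu, rfl⟩
    have a2 := Function.invFunOn_eq (f := f) (s := W) ⟨u, hu, rfl⟩
    have := h _ a1 u hu
    rw [a2, dist_self, mul_zero] at this
    exact dist_le_zero.1 this
  have hl : LipschitzOnWith c.toNNReal g (f '' W) := by
    apply LipschitzOnWith.of_dist_le_mul
    rintro _ ⟨u, hu, rfl⟩ _ ⟨v, hv, rfl⟩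
    rw [k u hu, k v hv, Real.coe_toNNReal _ hc]
    exact h u hu v hv
  have e : φ '' W = g '' (f '' W) := by
    rw [image_image]
    exact image_congr fun u hu => (k u hu).symm
  have := hl.hausdorffMeasure_image_le (d := ((2 : ℕ) : ℝ)) (by positivity)
  rw [e]
  simp only [Measure.euclideanHausdorffMeasure_def, Measure.smul_apply, ENNReal.smul_def,
    smul_eq_mul]
  rw [mul_left_comm]
  gcongr
  refine this.trans (le_of_eq ?_)
  rw [ENNReal.rpow_natCast, ENNReal.ofReal_pow hc]
  rfl

theorem he_vol : (μHE[2] : Measure ℂ) = volume := by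
  rw [← InnerProductSpace.euclideanHausdorffMeasure_eq_volume (V := ℂ), Complex.finrank_real_complex]

theorem ball_shift0 {s d : ℝ} (hs : 0 ≤ s) (hd : 0 ≤ d) :
    volume (closedBall (Complex.I * d) s \ closedBall (0 : ℂ) s) ≤ ENNReal.ofReal (2 * s * d) := by
  set a : ℝ → ℝ := fun x => √(s ^ 2 - x ^ 2) with ha
  set R : Set (ℝ × ℝ) := {p | p.1 ∈ Icc (-s) s ∧ p.2 ∈ Ioc (a p.1) (a p.1 + d)} with hR
  have hm : MeasurableSet R :=
    measurableSet_region_between_oc (f := a) (g := fun x => a x + d) (by fun_prop) (by fun_prop)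
      measurableSet_Icc
  have h1 : closedBall (Complex.I * d) s \ closedBall (0 : ℂ) s ⊆
      Complex.measurableEquivRealProd ⁻¹' R := by
    rintro z ⟨z1, z2⟩
    rw [mem_closedBall, dist_eq_norm, ← sq_le_sq₀ (norm_nonneg _) hs, Complex.sq_norm,
      Complex.normSq_apply] at z1 z2
    simp at z1 z2
    have k0 : z.re ^ 2 ≤ s ^ 2 := by nlinarith [sq_nonneg (z.im - d)]
    have k1 : a z.re ^ 2 = s ^ 2 - z.re ^ 2 := Real.sq_sqrt (by linarith)
    have k2 : 0 ≤ a z.re := Real.sqrt_nonneg _
    have k3 : |z.im - d| ≤ a z.re := abs_le_of_sq_le_sq' (by nlinarith) k2 |> abs_le.2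
    rw [abs_le] at k3
    refine ⟨abs_le_of_sq_le_sq' k0 hs, ?_, ?_⟩
    · change a z.re < z.im
      by_contra hc
      push Not at hc
      nlinarith
    · change z.im ≤ a z.re + d
      linarith
  refine (measure_mono h1).trans ?_
  rw [Complex.volume_preserving_equiv_real_prod.measure_preimage hm.nullMeasurableSet,
    Measure.volume_eq_prod, Measure.prod_apply hm]
  calc ∫⁻ x, volume (Prod.mk x ⁻¹' R) ≤
        ∫⁻ x, (Icc (-s) s).indicator (fun _ => ENNReal.ofReal d) x := by
        apply lintegral_mono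
        intro x
        by_cases hx : x ∈ Icc (-s) s
        · simp only [indicator_of_mem hx]
          refine (measure_mono (t := Ioc (a x) (a x + d)) fun y hy => hy.2).trans ?_
          simp
        · have : Prod.mk x ⁻¹' R = ∅ := eq_empty_of_forall_notMem fun y hy => hx hy.1
          simp [this]
    _ = ENNReal.ofReal (2 * s * d) := by
        rw [lintegral_indicator_const measurableSet_Icc, Real.volume_Icc,
          ← ENNReal.ofReal_mul hd]
        congr 1
        ring

theorem ball_shift {s : ℝ} (hs : 0 ≤ s) (u v : ℂ) :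
    volume (closedBall v s \ closedBall u s) ≤ ENNReal.ofReal (2 * s * ‖v - u‖) := by
  by_cases h : v = u
  · simp [h]
  have hd : 0 < ‖v - u‖ := norm_pos_iff.2 (sub_ne_zero.2 h)
  set ω : ℂ := (v - u) / (Complex.I * ‖v - u‖) with hω
  have n0 : (Complex.I * ‖v - u‖ : ℂ) ≠ 0 :=
    mul_ne_zero Complex.I_ne_zero (by exact_mod_cast hd.ne')
  have n1 : ‖ω‖ = 1 := by
    rw [hω, norm_div, norm_mul]
    simp [hd.ne']
  have n2 : ω ≠ 0 := by
    intro e
    simp [e] at n1
  set f : ℂ → ℂ := fun z => u + ω * z with hf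
  have hi : Isometry f := Isometry.of_dist_eq fun x y => by
    simp only [hf, dist_eq_norm]
    rw [add_sub_add_left_eq_sub, ← mul_sub, norm_mul, n1, one_mul]
  have hsur : range f = univ := by
    rw [range_eq_univ]
    intro z
    refine ⟨(z - u) / ω, ?_⟩
    simp only [hf]
    field_simp
    ring
  have e := hi.euclideanHausdorffMeasure_preimage (d := 2) (closedBall v s \ closedBall u s)
  rw [hsur, inter_univ, he_vol] at e
  have f0 : f 0 = u := by simp [hf]
  have f1 : f (Complex.I * ‖v - u‖) = v := by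
    simp only [hf, hω]
    rw [div_mul_cancel₀ _ n0]
    ring
  have p1 := hi.preimage_closedBall (Complex.I * ‖v - u‖) s
  have p0 := hi.preimage_closedBall 0 s
  rw [f1] at p1
  rw [f0] at p0
  rw [← e, preimage_diff, p1, p0]
  exact ball_shift0 hs hd.le

theorem ball_vol (u : ℂ) {r : ℝ} (hr : 0 ≤ r) :
    volume (closedBall u r) = ENNReal.ofReal (Real.pi * r ^ 2) := by
  rw [Complex.volume_closedBall, mul_comm Real.pi, ENNReal.ofReal_mul (by positivity),
    ENNReal.ofReal_pow hr, ← NNReal.coe_real_pi, ENNReal.ofReal_coe_nnreal]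

theorem ball_diff {r s R : ℝ} (hr : 0 ≤ r) (hs : 0 ≤ s) (h1 : r ≤ R) (h2 : s ≤ R) (u v : ℂ) :
    volume (closedBall v s \ closedBall u r) ≤
      ENNReal.ofReal (2 * R * ‖v - u‖ + 8 * R * |s - r|) := by
  have hR := hs.trans h2
  have a : closedBall v s \ closedBall u r ⊆
      (closedBall v s \ closedBall u s) ∪ (closedBall u s \ closedBall u r) := by
    rintro z ⟨z1, z2⟩
    by_cases h : z ∈ closedBall u s
    · exact Or.inr ⟨h, z2⟩
    · exact Or.inl ⟨z1, h⟩
  refine (measure_mono a).trans ((measure_union_le _ _).trans ?_)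
  rw [ENNReal.ofReal_add (by positivity) (by positivity)]
  apply add_le_add
  · refine (ball_shift hs u v).trans (ENNReal.ofReal_le_ofReal ?_)
    gcongr
  · rcases le_total s r with h | h
    · rw [diff_eq_empty.2 (closedBall_subset_closedBall h)]
      simp
    · rw [measure_diff (closedBall_subset_closedBall h)
        measurableSet_closedBall.nullMeasurableSet (by rw [ball_vol _ hr]; simp),
        ball_vol _ hr, ball_vol _ hs, ← ENNReal.ofReal_sub _ (by positivity)]
      apply ENNReal.ofReal_le_ofReal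
      rw [abs_of_nonneg (by linarith)]
      have p1 := Real.pi_le_four
      have p2 : 0 ≤ (s - r) * (s + r) := mul_nonneg (by linarith) (by linarith)
      have p3 : (s - r) * (s + r) ≤ (s - r) * (2 * R) :=
        mul_le_mul_of_nonneg_left (by linarith) (by linarith)
      nlinarith

/-- an open box -/
def obox (a b c d : ℝ) : Set ℂ := {u | a < u.re ∧ u.re < b ∧ c < u.im ∧ u.im < d}

theorem obox_vol (a b c d : ℝ) :
    volume (obox a b c d) = ENNReal.ofReal (b - a) * ENNReal.ofReal (d - c) := by
  have : obox a b c d = Complex.measurableEquivRealProd ⁻¹' (Ioo a b ×ˢ Ioo c d) := by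
    ext u
    simp [obox, and_assoc]
  rw [this, Complex.volume_preserving_equiv_real_prod.measure_preimage
    (measurableSet_Ioo.prod measurableSet_Ioo).nullMeasurableSet, Measure.volume_eq_prod,
    Measure.prod_prod, Real.volume_Ioo, Real.volume_Ioo]

theorem box_vol (a b c d : ℝ) :
    volume (box a b c d) = ENNReal.ofReal (b - a) * ENNReal.ofReal (d - c) := by
  have : box a b c d = Complex.measurableEquivRealProd ⁻¹' (Icc a b ×ˢ Icc c d) := by
    ext u
    simp [box, and_assoc]
    tauto
  rw [this, Complex.volume_preserving_equiv_real_prod.measure_preimage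
    (measurableSet_Icc.prod measurableSet_Icc).nullMeasurableSet, Measure.volume_eq_prod,
    Measure.prod_prod, Real.volume_Icc, Real.volume_Icc]

theorem obox_open (a b c d : ℝ) : IsOpen (obox a b c d) :=
  (isOpen_lt continuous_const Complex.continuous_re).inter
    ((isOpen_lt Complex.continuous_re continuous_const).inter
      ((isOpen_lt continuous_const Complex.continuous_im).inter
        (isOpen_lt Complex.continuous_im continuous_const)))

theorem box_compact (a b c d : ℝ) : IsCompact (box a b c d) := by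
  have : box a b c d = Complex.equivRealProdCLM.toHomeomorph ⁻¹' (Icc a b ×ˢ Icc c d) := by
    ext u
    simp [box, and_assoc]
    tauto
  rw [this, Homeomorph.isCompact_preimage]
  exact isCompact_Icc.prod isCompact_Icc

theorem obox_sub (a b c d : ℝ) : obox a b c d ⊆ box a b c d :=
  fun _ h => ⟨h.1.le, h.2.1.le, h.2.2.1.le, h.2.2.2.le⟩

theorem box_diff_vol (a b c d : ℝ) : volume (box a b c d \ obox a b c d) = 0 := by
  rw [measure_diff (obox_sub a b c d) (obox_open a b c d).measurableSet.nullMeasurableSet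
    (by rw [obox_vol]; finiteness), box_vol, obox_vol, tsub_self]

theorem T_vol (α β γ : ℝ) (X : Set ℂ) :
    volume (T α β γ '' X) = ENNReal.ofReal |α * γ| * volume X := by
  have e : T α β γ = Matrix.toLin Complex.basisOneI Complex.basisOneI !![α, β; 0, γ] := by
    funext w
    apply Complex.ext <;> simp [T, Matrix.toLin_apply, Fin.sum_univ_two, Matrix.mulVec, dotProduct]
  rw [e, Measure.addHaar_image_linearMap, LinearMap.det_toLin]
  simp

end Pool.Agent.H.MP_523900_gt
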