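import Pool.Agent.H.MP_523900_gt.C

namespace Pool.Agent.H.MP_523900_gt

open Set Filter Topology MeasureTheory Metric
open scoped ENNReal NNReal

theorem telescope (μ : Measure E) {S G : Set E} (D : E → Set E) {b c : ℝ≥0∞} {ε θ : ℝ}
    (he : 0 ≤ ε) (ht : 0 < θ) (hG : G ⊆ S)
    (h1 : ∀ x ∈ S, ∀ y ∈ S, μ (D y \ D x) ≤ c * edist y x) (h2 : ∀ x ∈ S, μ (D x) ≤ b)
    (h3 : ∀ z ∈ G, ∀ x ∈ S, dist z x ≤ ε + θ → z ∈ D x) {γ : ℝ → E} (hc : IsCurve S γ)
    (hd : EpsDense S ε γ) : μ G ≤ b + c * len γ := by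
  obtain ⟨d, d0, hd'⟩ := Metric.uniformContinuousOn_iff.1
    (isCompact_Icc.uniformContinuousOn_of_continuous hc.1) θ ht
  obtain ⟨n, hn⟩ := exists_nat_one_div_lt d0
  set u : ℕ → ℝ := fun i => min (i / (n + 1)) 1 with hu
  have u1 : ∀ i, u i ∈ Icc (0 : ℝ) 1 := fun i =>
    ⟨le_min (by positivity) zero_le_one, min_le_right _ _⟩
  have u2 : Monotone u := fun i j hij => min_le_min_right _ (by gcongr)
  have k : ∀ m : ℕ, μ (⋃ i ≤ m, D (γ (u i))) ≤
      b + c * ∑ i ∈ Finset.range m, edist (γ (u (i + 1))) (γ (u i)) := by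
    intro m
    induction m with
    | zero => simpa using h2 _ (hc.2 (u1 0))
    | succ m ih =>
      have : (⋃ i ≤ m + 1, D (γ (u i))) ⊆
          (⋃ i ≤ m, D (γ (u i))) ∪ (D (γ (u (m + 1))) \ D (γ (u m))) := by
        intro z hz
        obtain ⟨i, hi, hz⟩ := mem_iUnion₂.1 hz
        by_cases h : z ∈ D (γ (u m))
        · exact Or.inl (mem_iUnion₂.2 ⟨m, le_rfl, h⟩)
        · rcases hi.eq_or_lt with rfl | hi
          · exact Or.inr ⟨hz, h⟩
          · exact Or.inl (mem_iUnion₂.2 ⟨i, Nat.lt_succ_iff.1 hi, hz⟩)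
      refine (measure_mono this).trans ((measure_union_le _ _).trans ?_)
      rw [Finset.sum_range_succ, mul_add, ← add_assoc]
      exact add_le_add ih (h1 _ (hc.2 (u1 _)) _ (hc.2 (u1 _)))
  have cov : G ⊆ ⋃ i ≤ n + 1, D (γ (u i)) := by
    intro z hz
    obtain ⟨t, t1, t2⟩ := hd z (hG hz)
    have t3 : dist z (γ t) ≤ ε := by
      have := (edist_le_dS S z (γ t)).trans t2
      rwa [edist_dist, ENNReal.ofReal_le_ofReal_iff he] at this
    have p : (0 : ℝ) < n + 1 := by positivity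
    have f0 : 0 ≤ t * (n + 1) := mul_nonneg t1.1 p.le
    have f1 := Nat.floor_le f0
    have f2 := Nat.lt_floor_add_one (t * (n + 1))
    set i := ⌊t * (n + 1)⌋₊ with hi
    have f3 : (i : ℝ) ≤ n + 1 := by nlinarith [t1.2]
    have f4 : u i = i / (n + 1) := min_eq_left (by rwa [div_le_one p])
    refine mem_iUnion₂.2 ⟨i, by exact_mod_cast f3, h3 z hz _ (hc.2 (u1 i)) ?_⟩
    have : dist t (u i) < d := by
      refine lt_of_le_of_lt ?_ hn
      rw [f4, Real.dist_eq, show t - i / (n + 1) = (t * (n + 1) - i) / (n + 1) by field_simp,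
        abs_div, abs_of_pos p, abs_of_nonneg (by linarith)]
      gcongr
      linarith
    linarith [hd' t t1 _ (u1 i) this, dist_triangle z (γ t) (γ (u i))]
  refine (measure_mono cov).trans ((k _).trans ?_)
  gcongr
  exact eVariationOn.sum_le u2 u1

theorem lower_eta {S : Set E} {ι : Type*} (I : Set ι) (φ : ι → ℂ → E) (f : ι → ℂ → ℂ)
    (O : ι → Set ℂ) (Z : ι → Set E) {l η ε : ℝ} (hl : 1 < l) (hη : 0 < η) (he : 0 < ε)
    (hle : l * ε ≤ η) (hS : ∀ i u, φ i u ∈ S)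
    (hZ : ∀ i ∈ I, ∀ x ∈ S, x ∉ φ i '' O i → x ∈ Z i)
    (hdis : ∀ i ∈ I, ∀ j ∈ I, ∀ u ∈ O i, ∀ v ∈ O j, φ i u = φ j v → i = j)
    (hf : ∀ i ∈ I, ∀ u ∈ O i, ∀ v ∈ O i,
      dist (f i u) (f i v) ≤ l * dist (φ i u) (φ i v) ∧
        dist (φ i u) (φ i v) ≤ l * dist (f i u) (f i v))
    {γ : ℝ → E} (hc : IsCurve S γ) (hd : EpsDense S ε γ) :
    μHE[2] {z | ∃ i ∈ I, z ∈ φ i '' O i ∧ 2 * η ≤ infDist z (Z i)} ≤
      ENNReal.ofReal (4 * l ^ 6 * ε ^ 2) +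
        ENNReal.ofReal (2 * l ^ 5 * ε + 8 * l ^ 6 * ε ^ 2 / η) * len γ := by
  have l0 : 0 < l := by linarith
  set R := l ^ 2 * ε with hR
  have R0 : 0 < R := by positivity
  set r : ι → E → ℝ := fun i x => R * min 1 (infDist x (Z i) / η) with hr
  have r0 : ∀ i x, 0 ≤ r i x := fun i x =>
    mul_nonneg R0.le (le_min zero_le_one (div_nonneg infDist_nonneg hη.le))
  have r1 : ∀ i x, r i x ≤ R := fun i x => mul_le_of_le_one_right R0.le (min_le_left _ _)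
  have r2 : ∀ i x y, |r i y - r i x| ≤ R / η * dist y x := fun i x y => by
    simp only [hr]
    rw [← mul_sub, abs_mul, abs_of_pos R0, div_mul_eq_mul_div, mul_div_assoc]
    gcongr
    refine (abs_min_sub_min_le_max _ _ _ _).trans ?_
    rw [sub_self, abs_zero, ← sub_div, abs_div, abs_of_pos hη]
    refine max_le (by positivity) ?_
    gcongr
    simpa [Real.dist_eq] using (lipschitz_infDist_pt (Z i)).dist_le_mul y x
  set D : E → Set E := fun x =>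
    {z | ∃ i ∈ I, ∃ u ∈ O i, φ i u = x ∧ ∃ v ∈ O i, φ i v = z ∧ dist (f i v) (f i u) ≤ r i x}
    with hD
  have key : ∀ i ∈ I, ∀ X : Set ℂ,
      μHE[2] (φ i '' {v | v ∈ O i ∧ f i v ∈ X}) ≤ ENNReal.ofReal (l ^ 2) * volume X := by
    intro i hi X
    refine (meas_le (φ i) (f i) _ l0.le fun u hu v hv => (hf i hi u hu.1 v hv.1).2).trans ?_
    rw [he_vol]
    gcongr
    rintro _ ⟨v, hv, rfl⟩
    exact hv.2
  have sub : ∀ i ∈ I, ∀ u ∈ O i,
      D (φ i u) ⊆ φ i '' {v | v ∈ O i ∧ f i v ∈ closedBall (f i u) (r i (φ i u))} := by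
    rintro i hi u hu z ⟨j, hj, u', hu', e, v, hv, rfl, k⟩
    obtain rfl := hdis j hj i hi u' hu' u hu e
    have := (hf j hj u' hu' u hu).1
    rw [e, dist_self, mul_zero, dist_le_zero] at this
    rw [this] at k
    exact ⟨v, ⟨hv, k⟩, rfl⟩
  have bd : ∀ i ∈ I, ∀ u ∈ O i,
      μHE[2] (D (φ i u)) ≤ ENNReal.ofReal (l ^ 2 * (4 * r i (φ i u) ^ 2)) := by
    intro i hi u hu
    refine (measure_mono (sub i hi u hu)).trans ((key i hi _).trans ?_)
    rw [ball_vol _ (r0 _ _), ← ENNReal.ofReal_mul (by positivity)]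
    apply ENNReal.ofReal_le_ofReal
    gcongr
    exact Real.pi_le_four
  have emp : ∀ y, D y = ∅ ∨ ∃ i ∈ I, ∃ u ∈ O i, φ i u = y := fun y => by
    rcases (D y).eq_empty_or_nonempty with h | ⟨z, i, hi, u, hu, e, -⟩
    · exact Or.inl h
    · exact Or.inr ⟨i, hi, u, hu, e⟩
  refine telescope _ D he.le (θ := (l - 1) * ε) (mul_pos (by linarith) he) ?_ ?_ ?_ ?_ hc hd
  · rintro z ⟨i, -, ⟨u, -, rfl⟩, -⟩
    exact hS i u
  · intro x hx y _
    rcases emp y with h | ⟨i, hi, u', hu', rfl⟩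
    · simp [h]
    rw [edist_dist, ← ENNReal.ofReal_mul (by positivity)]
    have e : (2 * l ^ 5 * ε + 8 * l ^ 6 * ε ^ 2 / η) * dist (φ i u') x =
        l ^ 2 * (2 * R * (l * dist (φ i u') x) + 8 * R * (R / η * dist (φ i u') x)) := by
      rw [hR]
      field_simp
    rw [e]
    by_cases hx' : x ∈ φ i '' O i
    · obtain ⟨u, hu, rfl⟩ := hx'
      have : D (φ i u') \ D (φ i u) ⊆ φ i '' {v | v ∈ O i ∧ f i v ∈
          closedBall (f i u') (r i (φ i u')) \ closedBall (f i u) (r i (φ i u))} := by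
        rintro z ⟨z1, z2⟩
        obtain ⟨v, hv, rfl⟩ := sub i hi u' hu' z1
        exact ⟨v, ⟨hv.1, hv.2, fun k => z2 ⟨i, hi, u, hu, rfl, v, hv.1, rfl, k⟩⟩, rfl⟩
      refine (measure_mono this).trans ((key i hi _).trans ?_)
      rw [ENNReal.ofReal_mul (by positivity)]
      gcongr
      refine (ball_diff (r0 _ _) (r0 _ _) (r1 _ _) (r1 _ _) _ _).trans
        (ENNReal.ofReal_le_ofReal ?_)
      gcongr
      · rw [← dist_eq_norm]
        exact (hf i hi u' hu' u hu).1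
      · exact r2 _ _ _
    · refine (measure_mono diff_subset).trans ((bd i hi u' hu').trans ?_)
      apply ENNReal.ofReal_le_ofReal
      have a1 := r2 i x (φ i u')
      have a2 : r i x = 0 := by
        simp [hr, infDist_zero_of_mem (hZ i hi x hx hx')]
      rw [a2, sub_zero, abs_of_nonneg (r0 _ _)] at a1
      have a3 := mul_le_mul (r1 i (φ i u')) a1 (r0 _ _) R0.le
      have a4 : 0 ≤ R * (R / η * dist (φ i u') x) := by positivity
      have a5 : 0 ≤ R * (l * dist (φ i u') x) := by positivity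
      gcongr
      nlinarith
  · intro x _
    rcases emp x with h | ⟨i, hi, u, hu, rfl⟩
    · simp [h]
    refine (bd i hi u hu).trans (ENNReal.ofReal_le_ofReal ?_)
    calc l ^ 2 * (4 * r i (φ i u) ^ 2) ≤ l ^ 2 * (4 * R ^ 2) := by
          gcongr
          · exact r0 _ _
          · exact r1 _ _
      _ = _ := by rw [hR]; ring
  · rintro z ⟨i, hi, ⟨v, hv, rfl⟩, k⟩ x hx hd
    have a0 : dist (φ i v) x ≤ l * ε := by linarith
    have a1 : η ≤ infDist x (Z i) := by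
      have := infDist_le_infDist_add_dist (x := φ i v) (y := x) (s := Z i)
      linarith
    have a2 : x ∈ φ i '' O i := by
      by_contra hx'
      rw [infDist_zero_of_mem (hZ i hi x hx hx')] at a1
      linarith
    obtain ⟨u, hu, rfl⟩ := a2
    refine ⟨i, hi, u, hu, rfl, v, hv, rfl, ?_⟩
    simp only [hr]
    rw [min_eq_left (by rwa [one_le_div hη]), mul_one, hR]
    refine (hf i hi v hv u hu).1.trans ?_
    nlinarith

theorem lower_fam {S : Set E} {ι : Type*} (I : Set ι) (φ : ι → ℂ → E) (f : ι → ℂ → ℂ)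
    (O : ι → Set ℂ) (Z : ι → Set E) {l : ℝ} (hl : 1 < l) (hS : ∀ i u, φ i u ∈ S)
    (hZ : ∀ i ∈ I, ∀ x ∈ S, x ∉ φ i '' O i → x ∈ Z i)
    (hZ' : ∀ i ∈ I, ∀ u ∈ O i, 0 < infDist (φ i u) (Z i))
    (hdis : ∀ i ∈ I, ∀ j ∈ I, ∀ u ∈ O i, ∀ v ∈ O j, φ i u = φ j v → i = j)
    (hf : ∀ i ∈ I, ∀ u ∈ O i, ∀ v ∈ O i,
      dist (f i u) (f i v) ≤ l * dist (φ i u) (φ i v) ∧
        dist (φ i u) (φ i v) ≤ l * dist (f i u) (f i v))
    {g κ : ℝ} (hg : ENNReal.ofReal g < μHE[2] (⋃ i ∈ I, φ i '' O i)) (hk : 0 < κ) :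
    ∀ᶠ ε in 𝓝[>] (0 : ℝ),
      ENNReal.ofReal (g / (2 * l ^ 5) - κ) ≤ ENNReal.ofReal ε * LS S ε := by
  have l0 : 0 < l := by linarith
  set G : ℕ → Set E := fun n =>
    {z | ∃ i ∈ I, z ∈ φ i '' O i ∧ 2 * (1 / (n + 1 : ℝ)) ≤ infDist z (Z i)} with hG
  have g1 : Monotone G := by
    rintro m n hmn z ⟨i, hi, z1, z2⟩
    refine ⟨i, hi, z1, le_trans ?_ z2⟩
    gcongr
  have g2 : (⋃ i ∈ I, φ i '' O i) ⊆ ⋃ n, G n := by
    intro z hz
    obtain ⟨i, hi, u, hu, rfl⟩ := mem_iUnion₂.1 hz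
    obtain ⟨n, hn⟩ := exists_nat_one_div_lt (half_pos (hZ' i hi u hu))
    exact mem_iUnion.2 ⟨n, i, hi, ⟨u, hu, rfl⟩, by linarith⟩
  have g3 := hg.trans_le (measure_mono g2)
  rw [g1.measure_iUnion, lt_iSup_iff] at g3
  obtain ⟨n, hn⟩ := g3
  obtain ⟨η, hη⟩ : ∃ η, η = 1 / (n + 1 : ℝ) := ⟨_, rfl⟩
  have η0 : 0 < η := by rw [hη]; positivity
  have t1 : ∀ᶠ ε in 𝓝[>] (0 : ℝ), ε < η / l :=
    mem_nhdsWithin_of_mem_nhds (Iio_mem_nhds (by positivity))
  have c : ContinuousAt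
      (fun ε : ℝ => (g - 4 * l ^ 6 * ε ^ 2) / (2 * l ^ 5 + 8 * l ^ 6 * ε / η)) 0 := by
    apply ContinuousAt.div (by fun_prop) (by fun_prop)
    simp only [mul_zero, zero_div, add_zero]
    positivity
  have t2 : ∀ᶠ ε in 𝓝[>] (0 : ℝ), g / (2 * l ^ 5) - κ <
      (g - 4 * l ^ 6 * ε ^ 2) / (2 * l ^ 5 + 8 * l ^ 6 * ε / η) :=
    mem_nhdsWithin_of_mem_nhds (c.eventually (lt_mem_nhds (by simpa using hk)))
  filter_upwards [t1, t2, self_mem_nhdsWithin] with ε t1 t2 (e0 : 0 < ε)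
  rw [lt_div_iff₀ l0] at t1
  unfold LS
  rw [ENNReal.mul_iInf_of_ne (by simpa using e0) ENNReal.ofReal_ne_top]
  refine le_iInf fun γ => ?_
  rw [ENNReal.mul_iInf_of_ne (by simpa using e0) ENNReal.ofReal_ne_top]
  refine le_iInf fun h => ?_
  have a := hn.le.trans (by
    simpa only [hG, ← hη] using lower_eta I φ f O Z hl η0 e0 (by linarith) hS hZ hdis hf h.1 h.2.2)
  obtain ⟨L, L0, hL⟩ : ∃ L : ℝ, 0 ≤ L ∧ len γ = ENNReal.ofReal L :=
    ⟨(len γ).toReal, ENNReal.toReal_nonneg, (ENNReal.ofReal_toReal h.2.1).symm⟩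
  rw [hL, ← ENNReal.ofReal_mul (by positivity), ← ENNReal.ofReal_add (by positivity)
    (by positivity), ENNReal.ofReal_le_ofReal_iff (by positivity)] at a
  rw [hL, ← ENNReal.ofReal_mul e0.le]
  refine ENNReal.ofReal_le_ofReal (t2.le.trans ?_)
  rw [div_le_iff₀ (by positivity)]
  have : (2 * l ^ 5 * ε + 8 * l ^ 6 * ε ^ 2 / η) * L =
      ε * L * (2 * l ^ 5 + 8 * l ^ 6 * ε / η) := by ring
  linarith

end Pool.Agent.H.MP_523900_gt
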