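import Pool.Agent.H.MP_523900_gt.D

namespace Pool.Agent.H.MP_523900_gt

open Set Filter Topology MeasureTheory Metric
open scoped ENNReal NNReal

theorem convex_strict {G : ℂ → ℝ} (hc : ConvexOn ℝ univ G) {L : ℂ →L[ℝ] ℝ} {x : ℂ}
    (h : HasFDerivAt G L x) : HasStrictFDerivAt G L x := by
  rw [hasStrictFDerivAt_iff_isLittleO, Asymptotics.isLittleO_iff]
  intro c c0
  have h1 := (Asymptotics.isLittleO_iff.1 h.isLittleO) (half_pos c0)
  obtain ⟨r, r0, hr⟩ := Metric.eventually_nhds_iff_ball.1 h1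
  have key : ∀ y ∈ ball x (r / 3), ∀ z ∈ ball x (r / 3), G y - G z - L (y - z) ≤ c * ‖y - z‖ := by
    intro y hy z hz
    by_cases hyz : y = z
    · simp [hyz]
    have d0 : 0 < ‖y - z‖ := norm_pos_iff.2 (sub_ne_zero.2 hyz)
    rw [mem_ball, dist_eq_norm] at hy hz
    have d1 : ‖y - z‖ ≤ 2 * r / 3 := by
      have := norm_sub_le (y - x) (z - x)
      rw [sub_sub_sub_cancel_right] at this
      linarith
    obtain ⟨t, ht⟩ : ∃ t, t = ‖y - z‖ / (2 * r / 3) := ⟨_, rfl⟩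
    have t0 : 0 < t := by rw [ht]; positivity
    have t1 : t ≤ 1 := by rw [ht, div_le_one (by positivity)]; exact d1
    have t2 : t * (2 * r / 3) = ‖y - z‖ := by rw [ht]; field_simp
    set w := z + t⁻¹ • (y - z) with hw
    have w1 : ‖w - x‖ < r := by
      have e : w - x = (z - x) + t⁻¹ • (y - z) := by rw [hw]; abel
      have := norm_add_le (z - x) (t⁻¹ • (y - z))
      rw [← e, norm_smul, norm_inv, Real.norm_eq_abs, abs_of_pos t0, ← t2,
        inv_mul_cancel_left₀ t0.ne'] at this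
      linarith
    have w2 : (1 - t) • z + t • w = y := by
      rw [hw, smul_add, smul_smul, mul_inv_cancel₀ t0.ne', one_smul, sub_smul, one_smul]
      abel
    have k1 := hc.2 (mem_univ z) (mem_univ w) (sub_nonneg.2 t1) t0.le (by ring)
    rw [w2, smul_eq_mul, smul_eq_mul] at k1
    have k2 := hr w (by rwa [mem_ball, dist_eq_norm])
    have k3 := hr z (by rw [mem_ball, dist_eq_norm]; linarith)
    rw [Real.norm_eq_abs, abs_le] at k2 k3
    have k4 : L (y - z) = t * (L (w - x) - L (z - x)) := by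
      rw [← map_sub, sub_sub_sub_cancel_right, hw, add_sub_cancel_left, map_smul, smul_eq_mul,
        mul_inv_cancel_left₀ t0.ne']
    have k5 : G w - G z - (L (w - x) - L (z - x)) ≤ c * (2 * r / 3) := by nlinarith
    rw [k4, ← t2]
    nlinarith
  have : ball x (r / 3) ×ˢ ball x (r / 3) ∈ 𝓝 (x, x) :=
    prod_mem_nhds (ball_mem_nhds _ (by positivity)) (ball_mem_nhds _ (by positivity))
  filter_upwards [this] with p hp
  rw [Real.norm_eq_abs, abs_le]
  have a := key _ hp.2 _ hp.1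
  rw [norm_sub_rev, ← neg_sub p.1, map_neg] at a
  exact ⟨by linarith, key _ hp.1 _ hp.2⟩

/-- almost isometric on `W` after a shear -/
def Flat (φ : ℂ → E) (W : Set ℂ) (l : ℝ) : Prop :=
  ∃ α β γ : ℝ, 0 < α ∧ 0 < γ ∧ ∀ u ∈ W, ∀ v ∈ W,
    ‖T α β γ (u - v)‖ ≤ l * ‖φ u - φ v‖ ∧ ‖φ u - φ v‖ ≤ l * ‖T α β γ (u - v)‖

theorem Flat.mono {φ : ℂ → E} {W W' : Set ℂ} {l : ℝ} (h : Flat φ W l) (hW : W' ⊆ W) :
    Flat φ W' l := by
  obtain ⟨α, β, γ, h1, h2, h3⟩ := h
  exact ⟨α, β, γ, h1, h2, fun u hu v hv => h3 u (hW hu) v (hW hv)⟩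

theorem gram (A : ℂ →L[ℝ] E) (hA : ∀ w, A w = 0 → w = 0) :
    ∃ α β γ : ℝ, 0 < α ∧ 0 < γ ∧ ∀ w, ‖T α β γ w‖ = ‖A w‖ := by
  have a0 : 0 < ‖A 1‖ := norm_pos_iff.2 fun h => one_ne_zero (hA _ h)
  have e : ∀ w : ℂ, ‖A w‖ ^ 2 = w.re ^ 2 * ‖A 1‖ ^ 2 +
      2 * (w.re * w.im * inner ℝ (A 1) (A Complex.I)) + w.im ^ 2 * ‖A Complex.I‖ ^ 2 := by
    intro w
    have : w = w.re • (1 : ℂ) + w.im • Complex.I := by
      apply Complex.ext <;> simp
    nth_rewrite 1 [this]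
    rw [map_add, map_smul, map_smul, norm_add_sq_real, norm_smul, norm_smul, inner_smul_left,
      inner_smul_right, mul_pow, mul_pow, Real.norm_eq_abs, Real.norm_eq_abs, sq_abs, sq_abs]
    simp only [conj_trivial]
    ring
  obtain ⟨β, hb⟩ : ∃ β, β * ‖A 1‖ = inner ℝ (A 1) (A Complex.I) :=
    ⟨inner ℝ (A 1) (A Complex.I) / ‖A 1‖, by field_simp⟩
  obtain ⟨t, ht⟩ : ∃ t, t * ‖A 1‖ = β := ⟨β / ‖A 1‖, by field_simp⟩
  refine ⟨‖A 1‖, β, ‖A ⟨-t, 1⟩‖, a0, norm_pos_iff.2 fun h => ?_, fun w => ?_⟩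
  · simpa using congrArg Complex.im (hA _ h)
  · rw [← sq_eq_sq₀ (norm_nonneg _) (norm_nonneg _), e w, Complex.sq_norm, Complex.normSq_apply]
    have := e ⟨-t, 1⟩
    simp only [T] at this ⊢
    rw [← hb, ← ht] at this
    rw [← hb, ← ht]
    linear_combination (w.im ^ 2) * this

theorem flat_of_strict {φ : ℂ → E} {A : ℂ →L[ℝ] E} {x : ℂ} (h : HasStrictFDerivAt φ A x)
    (hA : ∀ w, A w = 0 → w = 0) {l : ℝ} (hl : 1 < l) : ∃ ρ, 0 < ρ ∧ Flat φ (ball x ρ) l := by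
  obtain ⟨α, β, γ, a0, g0, hT⟩ := gram A hA
  obtain ⟨K, K0, hK⟩ := (A : ℂ →ₗ[ℝ] E).exists_antilipschitzWith (LinearMap.ker_eq_bot'.2 hA)
  have K0' : (0 : ℝ) < K := K0
  have k : ∀ w, ‖w‖ ≤ K * ‖A w‖ := fun w => by simpa using hK.le_mul_dist w 0
  have l0 : 0 < l := by linarith
  obtain ⟨m, hm⟩ : ∃ m, m * l = l - 1 := ⟨(l - 1) / l, by field_simp⟩
  have m0 : 0 < m := by
    by_contra hc
    push Not at hc
    nlinarith
  have h1 := (Asymptotics.isLittleO_iff.1 h.isLittleO) (c := m / K) (by positivity)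
  obtain ⟨r, r0, hr⟩ := Metric.eventually_nhds_iff_ball.1 h1
  refine ⟨r, r0, α, β, γ, a0, g0, fun u hu v hv => ?_⟩
  have a := hr (u, v) (by rw [← ball_prod_same]; exact ⟨hu, hv⟩)
  dsimp only at a
  have b : ‖φ u - φ v - A (u - v)‖ ≤ m * ‖A (u - v)‖ := by
    refine a.trans ?_
    rw [div_mul_eq_mul_div, div_le_iff₀ K0', mul_assoc, mul_comm _ (K : ℝ)]
    gcongr
    exact k _
  have c := abs_le.1 ((abs_norm_sub_norm_le _ _).trans b)
  rw [hT]
  have n0 := norm_nonneg (A (u - v))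
  constructor
  · have : l * (‖A (u - v)‖ - m * ‖A (u - v)‖) ≤ l * ‖φ u - φ v‖ :=
      mul_le_mul_of_nonneg_left (by linarith [c.1]) l0.le
    have e : l * (‖A (u - v)‖ - m * ‖A (u - v)‖) = ‖A (u - v)‖ := by
      linear_combination (-‖A (u - v)‖) * hm
    linarith
  · have : m ≤ l - 1 := by nlinarith
    nlinarith [c.2]

/-- properties of a gauge -/
structure IsG (g : E → ℝ) : Prop where
  conv : ConvexOn ℝ univ g
  lip : ∃ C, LipschitzWith C g
  hom : ∀ t : ℝ, 0 ≤ t → ∀ z, g (t • z) = t * g z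
  low : ∃ R : ℝ, 0 < R ∧ ∀ z, ‖z‖ ≤ R * g z

/-- radial projection -/
noncomputable def pr (g : E → ℝ) (c z : E) : E := c + (g z)⁻¹ • z

/-- the surface -/
def sf (g : E → ℝ) (c : E) : Set E := {x | g (x - c) = 1}

variable {g : E → ℝ} {c : E}

theorem IsG.pos (h : IsG g) {z : E} (hz : z ≠ 0) : 0 < g z := by
  obtain ⟨R, R0, hR⟩ := h.low
  have := (norm_pos_iff.2 hz).trans_le (hR z)
  exact (mul_pos_iff_of_pos_left R0).1 this

theorem IsG.pr_mem (h : IsG g) {z : E} (hz : z ≠ 0) : pr g c z ∈ sf g c := by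
  have := h.pos hz
  simp only [sf, pr, mem_setOf_eq, add_sub_cancel_left]
  rw [h.hom _ (by positivity), inv_mul_cancel₀ this.ne']

theorem pr_self {x : E} (hx : x ∈ sf g c) : pr g c (x - c) = x := by
  simp only [sf, mem_setOf_eq] at hx
  simp [pr, hx]

theorem IsG.ne_zero (h : IsG g) {x : E} (hx : x ∈ sf g c) : x - c ≠ 0 := by
  intro e
  simp only [sf, mem_setOf_eq] at hx
  have := h.hom 0 le_rfl 0
  rw [e] at hx
  simp [hx] at this

theorem IsG.pr_smul (h : IsG g) {t : ℝ} (ht : 0 < t) (z : E) : pr g c (t • z) = pr g c z := by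
  simp only [pr]
  rw [h.hom t ht.le, smul_smul, mul_inv, mul_comm t⁻¹, mul_assoc, inv_mul_cancel₀ ht.ne', mul_one]

theorem IsG.pr_eq (h : IsG g) {a b : E} (ha : a ≠ 0) (hb : b ≠ 0) (e : pr g c a = pr g c b) :
    ∃ t : ℝ, 0 < t ∧ a = t • b := by
  have p1 := h.pos ha
  have p2 := h.pos hb
  refine ⟨g a * (g b)⁻¹, by positivity, ?_⟩
  rw [← smul_smul, ← add_left_cancel e, smul_smul, mul_inv_cancel₀ p1.ne', one_smul]

theorem IsG.pr_lip (h : IsG g) {r : ℝ} (hr : 0 < r) : ∃ L : ℝ, 0 < L ∧ ∀ x y : E, r ≤ ‖x‖ →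
    r ≤ ‖y‖ → ‖pr g c x - pr g c y‖ ≤ L * ‖x - y‖ := by
  obtain ⟨R, R0, hR⟩ := h.low
  obtain ⟨C, hC⟩ := h.lip
  refine ⟨R / r * (1 + R * C), by positivity, fun x y hx hy => ?_⟩
  have p1 := h.pos (norm_pos_iff.1 (hr.trans_le hx))
  have p2 := h.pos (norm_pos_iff.1 (hr.trans_le hy))
  have e : pr g c x - pr g c y = (g x)⁻¹ • ((x - y) + ((g y - g x) * (g y)⁻¹) • y) := by
    simp only [pr]
    rw [add_sub_add_left_eq_sub, smul_add, smul_smul, smul_sub, sub_add, ← sub_smul]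
    congr 2
    field_simp
    ring
  have a1 : (g x)⁻¹ ≤ R / r := by
    rw [inv_eq_one_div, div_le_div_iff₀ p1 hr]
    linarith [hR x]
  have a2 : |g y - g x| ≤ C * ‖x - y‖ := by
    have := hC.dist_le_mul y x
    rwa [Real.dist_eq, dist_eq_norm, norm_sub_rev] at this
  have a3 : (g y)⁻¹ * ‖y‖ ≤ R := by
    rw [inv_mul_le_iff₀ p2]
    linarith [hR y]
  rw [e, norm_smul, Real.norm_eq_abs, abs_of_pos (inv_pos.2 p1), mul_assoc]
  gcongr
  refine (norm_add_le _ _).trans ?_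
  rw [norm_smul, Real.norm_eq_abs, abs_mul, abs_of_pos (inv_pos.2 p2), mul_assoc]
  have := mul_le_mul a2 a3 (by positivity) (by positivity)
  linarith

theorem IsG.reach (h : IsG g) {a b : E} (hab : ∀ t ∈ Icc (0 : ℝ) 1, a + t • (b - a) ≠ 0) :
    ∃ D : ℝ, 0 ≤ D ∧ Reach (sf g c) (pr g c a) (pr g c b) (ENNReal.ofReal D) ∅ := by
  obtain ⟨t0, ht0, hm⟩ := isCompact_Icc.exists_isMinOn (f := fun t : ℝ => ‖a + t • (b - a)‖)
    (nonempty_Icc.2 zero_le_one) (by fun_prop)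
  obtain ⟨L, L0, hL⟩ := h.pr_lip (c := c) (norm_pos_iff.2 (hab t0 ht0))
  have := reach_of_lip (S := sf g c) (fun t : ℝ => pr g c (a + t • (b - a)))
    (c := L * ‖b - a‖) (by positivity) (fun s hs t ht => by
      refine (hL _ _ (hm hs) (hm ht)).trans (le_of_eq ?_)
      rw [add_sub_add_left_eq_sub, ← sub_smul, norm_smul, Real.norm_eq_abs]
      ring) (fun t ht => h.pr_mem (hab t ht))
  simp only [zero_smul, add_zero, one_smul, add_sub_cancel] at this
  exact ⟨_, by positivity, this.mono le_rfl (empty_subset _)⟩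

theorem IsG.conn (h : IsG g) : Conn (sf g c) := by
  classical
  intro x hx y hy
  obtain ⟨w, hw⟩ : ∃ w : E, w ∉ Submodule.span ℝ (({x - c, y - c} : Finset E) : Set E) := by
    by_contra hc
    push Not at hc
    have h1 := finrank_span_finset_le_card (R := ℝ) ({x - c, y - c} : Finset E)
    have h2 : ({x - c, y - c} : Finset E).card ≤ 2 := Finset.card_le_two
    rw [Set.finrank, Submodule.eq_top_iff'.2 hc] at h1
    simp at h1
    omega
  have key : ∀ a ∈ Submodule.span ℝ (({x - c, y - c} : Finset E) : Set E), a ≠ 0 →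
      ∀ s t : ℝ, s + t = 1 → s • a + t • w ≠ 0 := by
    intro a ha a0 s t hst e
    by_cases ht : t = 0
    · rw [ht, add_zero] at hst
      simp [ht, hst, a0] at e
    · apply hw
      have : w = (-(t⁻¹ * s)) • a := by
        rw [neg_smul, ← smul_smul, ← smul_neg, ← eq_neg_of_add_eq_zero_right e, smul_smul,
          inv_mul_cancel₀ ht, one_smul]
      rw [this]
      exact Submodule.smul_mem _ _ ha
  obtain ⟨D, d0, d1⟩ := h.reach (c := c) (a := x - c) (b := w) fun t _ => by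
    have := key (x - c) (Submodule.subset_span (by simp)) (h.ne_zero hx) (1 - t) t (by ring)
    convert this using 1
    module
  obtain ⟨D', d0', d1'⟩ := h.reach (c := c) (a := w) (b := y - c) fun t _ => by
    have := key (y - c) (Submodule.subset_span (by simp)) (h.ne_zero hy) t (1 - t) (by ring)
    convert this using 1
    module
  rw [pr_self hx] at d1
  rw [pr_self hy] at d1'
  refine ⟨D + D', by positivity, (d1.trans d1').mono ?_ (empty_subset _)⟩
  rw [ENNReal.ofReal_add d0 d0']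

end Pool.Agent.H.MP_523900_gt
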