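import Pool.Agent.H.MP_523900_gt.F

namespace Pool.Agent.H.MP_523900_gt

open Set Filter Topology MeasureTheory Metric
open scoped ENNReal NNReal

/-- sign -/
def sg (b : Bool) : ℝ := if b then 1 else -1

theorem abs_sg (b : Bool) : |sg b| = 1 := by cases b <;> simp [sg]

theorem sg_inj {b b' : Bool} (h : sg b = sg b') : b = b' := by
  cases b <;> cases b' <;> simp [sg] at h ⊢ <;> linarith

/-- linear part of a face -/
noncomputable def Lc (j : Fin 3) : ℂ →L[ℝ] E :=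
  Complex.reCLM.smulRight (EuclideanSpace.single (j + 1) 1) +
    Complex.imCLM.smulRight (EuclideanSpace.single (j + 2) 1)

theorem Lc0 (j : Fin 3) (w : ℂ) : Lc j w j = 0 := by fin_cases j <;> simp [Lc]
theorem Lc1 (j : Fin 3) (w : ℂ) : Lc j w (j + 1) = w.re := by fin_cases j <;> simp [Lc]
theorem Lc2 (j : Fin 3) (w : ℂ) : Lc j w (j + 2) = w.im := by fin_cases j <;> simp [Lc]

theorem Lc_le (j : Fin 3) (w : ℂ) : ‖Lc j w‖ ≤ 2 * ‖w‖ := by
  simp only [Lc, ContinuousLinearMap.add_apply, ContinuousLinearMap.smulRight_apply]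
  refine (norm_add_le _ _).trans ?_
  simp only [norm_smul, EuclideanSpace.norm_single, norm_one, mul_one, Complex.reCLM_apply,
    Complex.imCLM_apply, Real.norm_eq_abs]
  linarith [Complex.abs_re_le_norm w, Complex.abs_im_le_norm w]

/-- a face of the cube -/
noncomputable def emb (F : Fin 3 × Bool) (u : ℂ) : E :=
  EuclideanSpace.single F.1 (sg F.2) + Lc F.1 u

theorem emb0 (F : Fin 3 × Bool) (u : ℂ) : emb F u F.1 = sg F.2 := by simp [emb, Lc0]
theorem emb1 (F : Fin 3 × Bool) (u : ℂ) : emb F u (F.1 + 1) = u.re := by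
  obtain ⟨j, b⟩ := F
  simp only [emb, PiLp.add_apply, Lc1]
  fin_cases j <;> simp
theorem emb2 (F : Fin 3 × Bool) (u : ℂ) : emb F u (F.1 + 2) = u.im := by
  obtain ⟨j, b⟩ := F
  simp only [emb, PiLp.add_apply, Lc2]
  fin_cases j <;> simp

theorem idx (j k : Fin 3) : k = j ∨ k = j + 1 ∨ k = j + 2 := by revert j k; decide

theorem one_le_emb (F : Fin 3 × Bool) (u : ℂ) : 1 ≤ ‖emb F u‖ := by
  have := PiLp.norm_apply_le (emb F u) F.1
  rwa [emb0, Real.norm_eq_abs, abs_sg] at this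

theorem emb_ne (F : Fin 3 × Bool) (u : ℂ) : emb F u ≠ 0 :=
  norm_pos_iff.1 (zero_lt_one.trans_le (one_le_emb F u))

/-- chart -/
noncomputable def ch (g : E → ℝ) (c : E) (F : Fin 3 × Bool) (u : ℂ) : E := pr g c (emb F u)

variable {g : E → ℝ} {c : E}

theorem IsG.ch_mem (h : IsG g) (F : Fin 3 × Bool) (u : ℂ) : ch g c F u ∈ sf g c :=
  h.pr_mem (emb_ne F u)

theorem IsG.ch_lip (h : IsG g) :
    ∃ C : ℝ, 0 < C ∧ ∀ F u v, ‖ch g c F u - ch g c F v‖ ≤ C * ‖u - v‖ := by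
  obtain ⟨L, L0, hL⟩ := h.pr_lip (c := c) zero_lt_one
  refine ⟨L * 2, by positivity, fun F u v => ?_⟩
  refine (hL _ _ (one_le_emb F u) (one_le_emb F v)).trans ?_
  rw [emb, emb, add_sub_add_left_eq_sub, ← map_sub, mul_assoc]
  gcongr
  exact Lc_le _ _

theorem IsG.ch_cover (h : IsG g) {x : E} (hx : x ∈ sf g c) :
    ∃ F, ∃ u ∈ box (-1) 1 (-1) 1, ch g c F u = x := by
  have z0 := h.ne_zero hx
  set z := x - c with hz
  obtain ⟨j, -, hj⟩ := Finset.exists_max_image Finset.univ (fun k : Fin 3 => |z k|)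
    Finset.univ_nonempty
  have m0 : 0 < |z j| := by
    by_contra hc
    apply z0
    ext k
    have := hj k (Finset.mem_univ _)
    have := abs_nonneg (z k)
    simpa using (show |z k| = 0 by linarith)
  have b : ∀ k, -1 ≤ z k / |z j| ∧ z k / |z j| ≤ 1 := fun k => by
    rw [← abs_le, abs_div, abs_abs, div_le_one m0]
    exact hj k (Finset.mem_univ _)
  refine ⟨(j, decide (0 < z j)), ⟨z (j + 1) / |z j|, z (j + 2) / |z j|⟩,
    ⟨(b _).1, (b _).2, (b _).1, (b _).2⟩, ?_⟩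
  have : emb (j, decide (0 < z j)) ⟨z (j + 1) / |z j|, z (j + 2) / |z j|⟩ = |z j|⁻¹ • z := by
    ext k
    rcases idx j k with rfl | rfl | rfl
    · rw [emb0 (k, decide (0 < z k))]
      simp only [PiLp.smul_apply, smul_eq_mul, sg, decide_eq_true_eq]
      split_ifs with hk
      · rw [abs_of_pos hk, inv_mul_cancel₀ hk.ne']
      · have : z k ≠ 0 := abs_pos.1 m0
        rw [abs_of_nonpos (not_lt.1 hk)]
        field_simp
    · rw [emb1 (j, decide (0 < z j))]
      simp [div_eq_inv_mul]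
    · rw [emb2 (j, decide (0 < z j))]
      simp [div_eq_inv_mul]
  rw [ch, this, h.pr_smul (inv_pos.2 m0), pr_self hx]

theorem IsG.ch_inj (h : IsG g) {F : Fin 3 × Bool} {u v : ℂ} (e : ch g c F u = ch g c F v) :
    u = v := by
  obtain ⟨t, t0, ht⟩ := h.pr_eq (emb_ne F u) (emb_ne F v) e
  have k : ∀ k, emb F u k = t * emb F v k := fun k => by rw [ht]; simp
  have k0 := congrArg abs (k F.1)
  rw [emb0, emb0, abs_mul, abs_sg, abs_of_pos t0, mul_one] at k0
  have k1 := k (F.1 + 1)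
  have k2 := k (F.1 + 2)
  rw [emb1, emb1, ← k0, one_mul] at k1
  rw [emb2, emb2, ← k0, one_mul] at k2
  exact Complex.ext k1 k2

theorem IsG.ch_dis (h : IsG g) {F F' : Fin 3 × Bool} {u v : ℂ} (hu : u ∈ obox (-1) 1 (-1) 1)
    (hv : v ∈ box (-1) 1 (-1) 1) (e : ch g c F u = ch g c F' v) : F = F' := by
  obtain ⟨t, t0, ht⟩ := h.pr_eq (emb_ne F u) (emb_ne F' v) e
  have k : ∀ k, emb F u k = t * emb F' v k := fun k => by rw [ht]; simp
  have a1 : |emb F' v F.1| ≤ 1 := by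
    rcases idx F'.1 F.1 with e | e | e <;> rw [e]
    · rw [emb0, abs_sg]
    · rw [emb1]
      exact abs_le.2 ⟨hv.1, hv.2.1⟩
    · rw [emb2]
      exact abs_le.2 ⟨hv.2.2.1, hv.2.2.2⟩
  have k0 := congrArg abs (k F.1)
  rw [emb0, abs_mul, abs_sg, abs_of_pos t0] at k0
  have t1 : 1 ≤ t := by nlinarith
  have k1 := congrArg abs (k F'.1)
  rw [emb0, abs_mul, abs_sg, abs_of_pos t0, mul_one] at k1
  rcases idx F.1 F'.1 with e | e | e <;> rw [e] at k1
  · rw [emb0, abs_sg] at k1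
    have k2 := k F.1
    rw [emb0, ← e, emb0, ← k1, one_mul] at k2
    exact Prod.ext e.symm (sg_inj k2)
  · rw [emb1] at k1
    linarith [abs_lt.2 ⟨hu.1, hu.2.1⟩]
  · rw [emb2] at k1
    linarith [abs_lt.2 ⟨hu.2.2.1, hu.2.2.2⟩]

theorem IsG.ch_ae (h : IsG g) (F : Fin 3 × Bool) {l : ℝ} (hl : 1 < l) :
    ∀ᵐ u, ∃ ρ, 0 < ρ ∧ Flat (ch g c F) (ball u ρ) l := by
  obtain ⟨C, hC⟩ := h.lip
  have h1 : LipschitzWith ‖Lc F.1‖₊ (emb F) := by
    apply LipschitzWith.of_dist_le_mul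
    intro u v
    rw [emb, emb, dist_add_left]
    exact (Lc F.1).lipschitz.dist_le_mul u v
  have h2 : ConvexOn ℝ univ (g ∘ emb F) := by
    refine ⟨convex_univ, fun u _ v _ s t hs ht hst => ?_⟩
    have := h.conv.2 (mem_univ (emb F u)) (mem_univ (emb F v)) hs ht hst
    refine le_trans (le_of_eq ?_) this
    simp only [Function.comp, emb, map_add, map_smul]
    congr 1
    obtain rfl : t = 1 - s := by linarith
    module
  filter_upwards [(hC.comp h1).ae_differentiableAt (μ := volume)] with u hu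
  have d1 := convex_strict h2 hu.hasFDerivAt
  have p := h.pos (emb_ne F u)
  have d2 := (hasStrictDerivAt_inv p.ne').comp_hasStrictFDerivAt u d1
  have d3 : HasStrictFDerivAt (emb F) (Lc F.1) u := (Lc F.1).hasStrictFDerivAt.const_add _
  refine flat_of_strict ((d2.smul d3).const_add c) (fun w hw => ?_) hl
  simp only [ContinuousLinearMap.add_apply, ContinuousLinearMap.smul_apply,
    ContinuousLinearMap.smulRight_apply, Function.comp] at hw
  have k := fun k => congrArg (fun z : E => z k) hw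
  simp only [PiLp.add_apply, PiLp.smul_apply, smul_eq_mul, PiLp.zero_apply] at k
  have k0 := k F.1
  have s0 : sg F.2 ≠ 0 := abs_pos.1 (by rw [abs_sg]; exact one_pos)
  rw [Lc0, emb0, mul_zero, zero_add, mul_eq_zero_iff_right s0] at k0
  have k1 := k (F.1 + 1)
  have k2 := k (F.1 + 2)
  rw [k0, zero_mul, add_zero, Lc1, mul_eq_zero_iff_left (inv_pos.2 p).ne'] at k1
  rw [k0, zero_mul, add_zero, Lc2, mul_eq_zero_iff_left (inv_pos.2 p).ne'] at k2
  exact Complex.ext k1 k2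

theorem few_bad {φ : ℂ → E} {l δ : ℝ} (h : ∀ᵐ u, ∃ ρ, 0 < ρ ∧ Flat φ (ball u ρ) l) (hd : 0 < δ) :
    ∀ᶠ n : ℕ in atTop, volume (box (-1) 1 (-1) 1 \
      {u | ∃ ρ, 8 / (n + 1 : ℝ) < ρ ∧ Flat φ (ball u ρ) l}) < ENNReal.ofReal δ := by
  set B : ℕ → Set ℂ := fun n => box (-1) 1 (-1) 1 \
    {u | ∃ ρ, 8 / (n + 1 : ℝ) < ρ ∧ Flat φ (ball u ρ) l} with hB
  have o : ∀ r : ℝ, IsOpen {u | ∃ ρ, r < ρ ∧ Flat φ (ball u ρ) l} := fun r => by
    rw [Metric.isOpen_iff]
    rintro u ⟨ρ, h1, h2⟩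
    refine ⟨ρ - r, by linarith, fun v hv => ⟨ρ - dist v u, by linarith [mem_ball.1 hv], ?_⟩⟩
    exact h2.mono (ball_subset_ball' (by linarith))
  have t := tendsto_measure_iInter_atTop (μ := volume) (s := B)
    (fun n => ((box_compact _ _ _ _).measurableSet.diff (o _).measurableSet).nullMeasurableSet)
    (fun m n hmn => diff_subset_diff_right fun u ⟨ρ, h1, h2⟩ =>
      ⟨ρ, lt_of_le_of_lt (by gcongr) h1, h2⟩)
    ⟨0, ((measure_mono diff_subset).trans_lt (box_compact _ _ _ _).measure_lt_top).ne⟩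
  have z : volume (⋂ n, B n) = 0 := by
    refine measure_mono_null ?_ (ae_iff.1 h)
    rintro u hu ⟨ρ, r0, hr⟩
    obtain ⟨n, hn⟩ := exists_nat_one_div_lt (show 0 < ρ / 8 by positivity)
    refine (mem_iInter.1 hu n).2 ⟨ρ, ?_, hr⟩
    rw [div_eq_mul_one_div]
    linarith
  rw [z] at t
  exact t.eventually (gt_mem_nhds (by simpa using hd))

end Pool.Agent.H.MP_523900_gt
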