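import Pool.Agent.H.MP_523900_gt.G

namespace Pool.Agent.H.MP_523900_gt

open Set Filter Topology MeasureTheory Metric
open scoped ENNReal NNReal

/-- mesh -/
noncomputable def ms (n : ℕ) : ℝ := 2 / (n + 1)

/-- grid point -/
noncomputable def gp (n : ℕ) (k : Fin (n + 1)) : ℝ := -1 + k * ms n

theorem ms_pos (n : ℕ) : 0 < ms n := by unfold ms; positivity

theorem ms_mul (n : ℕ) : (n + 1) * ms n = 2 := by unfold ms; field_simp

theorem gp_low (n : ℕ) (k : Fin (n + 1)) : -1 ≤ gp n k := by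
  have := ms_pos n
  have : 0 ≤ (k : ℝ) * ms n := by positivity
  unfold gp
  linarith

theorem gp_up (n : ℕ) (k : Fin (n + 1)) : gp n k + ms n ≤ 1 := by
  have h1 := ms_pos n
  have h2 := ms_mul n
  have h3 : (k : ℝ) ≤ n := by exact_mod_cast Nat.lt_succ_iff.1 k.2
  unfold gp
  nlinarith

theorem gp_cover (n : ℕ) {x : ℝ} (h1 : -1 ≤ x) (h2 : x ≤ 1) :
    ∃ k, gp n k ≤ x ∧ x ≤ gp n k + ms n := by
  have m1 := ms_pos n
  have m2 := ms_mul n
  have f0 : 0 ≤ (x + 1) / ms n := div_nonneg (by linarith) m1.le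
  have f1 := Nat.floor_le f0
  have f2 := Nat.lt_floor_add_one ((x + 1) / ms n)
  rw [le_div_iff₀ m1] at f1
  rw [div_lt_iff₀ m1] at f2
  by_cases h : ⌊(x + 1) / ms n⌋₊ < n + 1
  · refine ⟨⟨_, h⟩, ?_, ?_⟩ <;> simp only [gp] <;> linarith
  · have : ((n + 1 : ℕ) : ℝ) ≤ ⌊(x + 1) / ms n⌋₊ := by exact_mod_cast not_lt.1 h
    push_cast at this
    refine ⟨Fin.last n, ?_, ?_⟩ <;> simp only [gp, Fin.val_last] <;> nlinarith

theorem gp_uniq {n : ℕ} {k k' : Fin (n + 1)} {x : ℝ} (h1 : gp n k < x) (h2 : x < gp n k + ms n)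
    (h3 : gp n k' ≤ x) (h4 : x ≤ gp n k' + ms n) : k = k' := by
  have m1 := ms_pos n
  unfold gp at *
  have a : (k : ℝ) < k' + 1 := lt_of_mul_lt_mul_right (by linarith) m1.le
  have b : (k' : ℝ) < k + 1 := lt_of_mul_lt_mul_right (by linarith) m1.le
  have a' : (k : ℕ) < k' + 1 := by exact_mod_cast a
  have b' : (k' : ℕ) < k + 1 := by exact_mod_cast b
  exact Fin.ext (by omega)

/-- grid cells -/
abbrev Cell (n : ℕ) := Fin (n + 1) × Fin (n + 1)

/-- closed cell -/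
def Qc (n : ℕ) (k : Cell n) : Set ℂ :=
  box (gp n k.1) (gp n k.1 + ms n) (gp n k.2) (gp n k.2 + ms n)

/-- open cell -/
def Qo (n : ℕ) (k : Cell n) : Set ℂ :=
  obox (gp n k.1) (gp n k.1 + ms n) (gp n k.2) (gp n k.2 + ms n)

/-- enlarged cell -/
def Qw (n : ℕ) (k : Cell n) : Set ℂ :=
  box (gp n k.1 - ms n) (gp n k.1 + ms n + ms n) (gp n k.2) (gp n k.2 + ms n + ms n)

theorem Qc_sub (n : ℕ) (k : Cell n) : Qc n k ⊆ box (-1) 1 (-1) 1 := fun _ h =>
  ⟨(gp_low n _).trans h.1, h.2.1.trans (gp_up n _), (gp_low n _).trans h.2.2.1,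
    h.2.2.2.trans (gp_up n _)⟩

theorem Qo_sub (n : ℕ) (k : Cell n) : Qo n k ⊆ obox (-1) 1 (-1) 1 := fun _ h =>
  ⟨(gp_low n _).trans_lt h.1, h.2.1.trans_le (gp_up n _), (gp_low n _).trans_lt h.2.2.1,
    h.2.2.2.trans_le (gp_up n _)⟩

theorem Qo_w (n : ℕ) (k : Cell n) : Qo n k ⊆ Qw n k := fun _ h =>
  ⟨by linarith [h.1, ms_pos n], by linarith [h.2.1, ms_pos n], h.2.2.1.le,
    by linarith [h.2.2.2, ms_pos n]⟩

theorem Q_uniq {n : ℕ} {k k' : Cell n} {u : ℂ} (h : u ∈ Qo n k) (h' : u ∈ Qc n k') : k = k' :=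
  Prod.ext (gp_uniq h.1 h.2.1 h'.1 h'.2.1) (gp_uniq h.2.2.1 h.2.2.2 h'.2.2.1 h'.2.2.2)

theorem Qo_vol (n : ℕ) (k : Cell n) : volume (Qo n k) = ENNReal.ofReal (ms n ^ 2) := by
  rw [Qo, obox_vol, ← ENNReal.ofReal_mul (by linarith [ms_pos n])]
  congr 1
  ring

theorem Qc_vol (n : ℕ) (k : Cell n) : volume (Qc n k) = ENNReal.ofReal (ms n ^ 2) := by
  rw [Qc, box_vol, ← ENNReal.ofReal_mul (by linarith [ms_pos n])]
  congr 1
  ring

open Classical in
theorem bad_sum {φ : ℂ → E} {l δ : ℝ} (hd : 0 < δ) {n : ℕ} (h : volume (box (-1) 1 (-1) 1 \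
      {u | ∃ ρ, 8 / (n + 1 : ℝ) < ρ ∧ Flat φ (ball u ρ) l}) < ENNReal.ofReal δ) :
    ∑ k : Cell n, (if Flat φ (Qw n k) l then 0 else ms n ^ 2) ≤ δ := by
  set B := Finset.univ.filter (fun k : Cell n => ¬ Flat φ (Qw n k) l) with hB
  have a : (⋃ k ∈ B, Qo n k) ⊆ box (-1) 1 (-1) 1 \
      {u | ∃ ρ, 8 / (n + 1 : ℝ) < ρ ∧ Flat φ (ball u ρ) l} := by
    intro u hu
    obtain ⟨k, hk, hu⟩ := mem_iUnion₂.1 hu
    refine ⟨obox_sub _ _ _ _ (Qo_sub n k hu), fun ⟨ρ, h1, h2⟩ => (Finset.mem_filter.1 hk).2 ?_⟩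
    refine h2.mono fun v hv => ?_
    rw [mem_ball, dist_eq_norm]
    refine (Complex.norm_le_abs_re_add_abs_im _).trans_lt (lt_of_le_of_lt ?_ h1)
    have e : 8 / (n + 1 : ℝ) = 2 * ms n + 2 * ms n := by unfold ms; ring
    obtain ⟨u1, u2, u3, u4⟩ := hu
    obtain ⟨v1, v2, v3, v4⟩ := hv
    have := ms_pos n
    rw [e, Complex.sub_re, Complex.sub_im]
    apply add_le_add <;> rw [abs_le] <;> constructor <;> linarith
  have b := (measure_mono a).trans h.le
  rw [measure_biUnion_finset (fun k _ k' _ hk => disjoint_left.2 fun u h1 h2 =>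
    hk (Q_uniq h1 (obox_sub _ _ _ _ h2))) (fun k _ => (obox_open _ _ _ _).measurableSet)] at b
  simp only [Qo_vol] at b
  rw [← ENNReal.ofReal_sum_of_nonneg (fun _ _ => by positivity),
    ENNReal.ofReal_le_ofReal_iff hd.le, hB, Finset.sum_filter] at b
  simpa only [ite_not] using b

variable {g : E → ℝ} {c : E}

theorem IsG.cover (h : IsG g) (n : ℕ) {x : E} (hx : x ∈ sf g c) :
    ∃ i : (Fin 3 × Bool) × Cell n, x ∈ ch g c i.1 '' Qc n i.2 := by
  obtain ⟨F, u, hu, rfl⟩ := h.ch_cover hx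
  obtain ⟨k, k1, k2⟩ := gp_cover n hu.1 hu.2.1
  obtain ⟨m, m1, m2⟩ := gp_cover n hu.2.2.1 hu.2.2.2
  exact ⟨(F, k, m), u, ⟨k1, k2, m1, m2⟩, rfl⟩

theorem IsG.uniq (h : IsG g) {n : ℕ} {i j : (Fin 3 × Bool) × Cell n} {u v : ℂ}
    (hu : u ∈ Qo n i.2) (hv : v ∈ Qc n j.2) (e : ch g c i.1 u = ch g c j.1 v) : i = j ∧ u = v := by
  have a := h.ch_dis (Qo_sub _ _ hu) (Qc_sub _ _ hv) e
  rw [← a] at e
  obtain rfl := h.ch_inj e
  exact ⟨Prod.ext a (Q_uniq hu hv), rfl⟩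

theorem IsG.ch_cont (h : IsG g) (F : Fin 3 × Bool) : Continuous (ch g c F) := by
  obtain ⟨C, C0, hC⟩ := h.ch_lip (c := c)
  refine (LipschitzWith.of_dist_le_mul (K := C.toNNReal) fun u v => ?_).continuous
  rw [dist_eq_norm, dist_eq_norm, Real.coe_toNNReal _ C0.le]
  exact hC F u v

theorem ch_meas {C : ℝ} (C0 : 0 < C)
    (hC : ∀ F u v, ‖ch g c F u - ch g c F v‖ ≤ C * ‖u - v‖) (F : Fin 3 × Bool) (X : Set ℂ) :
    μHE[2] (ch g c F '' X) ≤ ENNReal.ofReal (C ^ 2) * volume X := by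
  have := meas_le (ch g c F) id X C0.le fun u _ v _ => by
    simpa only [dist_eq_norm, id] using hC F u v
  rwa [image_id, he_vol] at this

theorem IsG.finite (h : IsG g) : μHE[2] (sf g c) ≠ ⊤ := by
  obtain ⟨C, C0, hC⟩ := h.ch_lip (c := c)
  have : sf g c ⊆ ⋃ F, ch g c F '' box (-1) 1 (-1) 1 := fun x hx => by
    obtain ⟨F, u, hu, e⟩ := h.ch_cover hx
    exact mem_iUnion.2 ⟨F, u, hu, e⟩
  refine (((measure_mono this).trans (measure_iUnion_fintype_le _ _)).trans_lt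
    (ENNReal.sum_lt_top.2 fun F _ => ?_)).ne
  exact (ch_meas C0 hC F _).trans_lt
    (ENNReal.mul_lt_top ENNReal.ofReal_lt_top (box_compact _ _ _ _).measure_lt_top)

open Classical in
theorem IsG.grid (h : IsG g) {l δ : ℝ} (hl : 1 < l) (hd : 0 < δ) : ∃ n : ℕ,
    ∑ i : (Fin 3 × Bool) × Cell n,
      (if Flat (ch g c i.1) (Qw n i.2) l then 0 else ms n ^ 2) ≤ 6 * δ := by
  obtain ⟨n, hn⟩ := (eventually_all.2 fun F => few_bad (h.ch_ae (c := c) F hl) hd).exists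
  refine ⟨n, ?_⟩
  rw [Fintype.sum_prod_type]
  refine (Finset.sum_le_sum fun F _ => bad_sum hd (hn F)).trans ?_
  simp

theorem T_scale (l α β γ : ℝ) (w : ℂ) : T (l * α) (l * β) (l * γ) w = l • T α β γ w := by
  apply Complex.ext <;> simp [T] <;> ring

theorem IsG.upper (h : IsG g) : ∃ C : ℝ, ∀ l δ : ℝ, 1 < l → l ≤ 2 → 0 < δ → ∃ p,
    Cov (sf g c) p (sf g c) (l ^ 4 * (2 * l - 1) / 2 * (μHE[2] (sf g c)).toReal + C * δ) := by
  classical
  obtain ⟨C, C0, hC⟩ := h.ch_lip (c := c)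
  refine ⟨9 * C ^ 2, fun l δ hl hl2 hd => ?_⟩
  obtain ⟨n, hn⟩ := h.grid (c := c) hl hd
  have m0 := ms_pos n
  have l0 : 0 < l := by linarith
  have l1 : 0 < 2 * l - 1 := by linarith
  have hp := h.ch_mem (c := c) (0, true) 0
  have fin : ∀ i : (Fin 3 × Bool) × Cell n, μHE[2] (ch g c i.1 '' Qo n i.2) ≠ ⊤ := fun i =>
    ne_top_of_le_ne_top h.finite (measure_mono (image_subset_iff.2 fun u _ => h.ch_mem _ u))
  refine ⟨_, (Cov.sum h.conn hp Finset.univ
    (fun i : (Fin 3 × Bool) × Cell n => ch g c i.1 '' Qc n i.2)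
    (fun i => l ^ 4 * (2 * l - 1) / 2 * (μHE[2] (ch g c i.1 '' Qo n i.2)).toReal +
      3 / 2 * C ^ 2 * (if Flat (ch g c i.1) (Qw n i.2) l then 0 else ms n ^ 2))
    (fun i _ => by split_ifs <;> positivity) fun i _ => ?_).mono (fun x hx => ?_) ?_⟩
  · split_ifs with hi
    · obtain ⟨α, β, γ, a0, g0, hf⟩ := hi
      have e0 : 0 < (l - 1) * ms n := mul_pos (by linarith) m0
      have e1 : (l - 1) * ms n ≤ ms n := by nlinarith
      have := cov_square (h.ch_mem (c := c) i.1) (α := l * α) (β := l * β) (γ := l * γ)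
        (a := gp n i.2.1) (b := gp n i.2.2) (by positivity) (by positivity) m0 e0
        (fun u hu v hv => by
          rw [T_scale, norm_smul, Real.norm_eq_abs, abs_of_pos l0]
          exact (hf u ⟨by linarith [hu.1], by linarith [hu.2.1], hu.2.2.1, by linarith [hu.2.2.2]⟩
            v ⟨by linarith [hv.1], by linarith [hv.2.1], hv.2.2.1, by linarith [hv.2.2.2]⟩).2)
      refine (this.move h.conn (h.ch_mem _ _) hp (by positivity)).mono le_rfl ?_
      have k := meas_le (T α β γ) (ch g c i.1) (Qo n i.2) l0.le fun u hu v hv => by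
        rw [dist_eq_norm, dist_eq_norm, ← T_sub]
        exact (hf u (Qo_w _ _ hu) v (Qo_w _ _ hv)).1
      rw [he_vol, T_vol, Qo_vol, ← ENNReal.ofReal_toReal (fin i),
        ← ENNReal.ofReal_mul (by positivity), ← ENNReal.ofReal_mul (by positivity),
        ENNReal.ofReal_le_ofReal_iff (by positivity), abs_of_pos (by positivity)] at k
      have k2 := mul_le_mul_of_nonneg_left k (show 0 ≤ l ^ 2 * (2 * l - 1) / 2 by positivity)
      linarith
    · have := cov_square (h.ch_mem (c := c) i.1) (α := C) (β := 0) (γ := C)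
        (a := gp n i.2.1) (b := gp n i.2.2) C0 C0 m0 m0
        (fun u _ v _ => by
          have e : T C 0 C (u - v) = C • (u - v) := by
            apply Complex.ext <;> simp [T]
          rw [e, norm_smul, Real.norm_eq_abs, abs_of_pos C0]
          exact hC _ u v)
      refine (this.move h.conn (h.ch_mem _ _) hp (by positivity)).mono le_rfl ?_
      have : 0 ≤ l ^ 4 * (2 * l - 1) / 2 * (μHE[2] (ch g c i.1 '' Qo n i.2)).toReal := by
        positivity
      linarith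
  · obtain ⟨i, hi⟩ := h.cover n hx
    exact mem_iUnion₂.2 ⟨i, Finset.mem_univ _, hi⟩
  · rw [Finset.sum_add_distrib, ← Finset.mul_sum, ← Finset.mul_sum]
    apply add_le_add
    · gcongr
      rw [← ENNReal.toReal_sum fun i _ => fin i, ← measure_biUnion_finset]
      · refine ENNReal.toReal_mono h.finite (measure_mono ?_)
        exact iUnion₂_subset fun i _ => image_subset_iff.2 fun u _ => h.ch_mem _ u
      · intro i _ j _ hij
        refine disjoint_left.2 ?_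
        rintro _ ⟨u, hu, rfl⟩ ⟨v, hv, e⟩
        exact hij (h.uniq hu (obox_sub _ _ _ _ hv) e.symm).1
      · intro i _
        exact (obox_open _ _ _ _).measurableSet.image_of_continuousOn_injOn
          (h.ch_cont _).continuousOn fun u _ v _ e => h.ch_inj e
    · have := mul_le_mul_of_nonneg_left hn (show 0 ≤ 3 / 2 * C ^ 2 by positivity)
      linarith

theorem IsG.lower (h : IsG g) : ∃ C : ℝ, ∀ l δ : ℝ, 1 < l → 0 < δ → ∀ᶠ ε in 𝓝[>] (0 : ℝ),
    ENNReal.ofReal (((μHE[2] (sf g c)).toReal - C * δ) / (2 * l ^ 5) - δ) ≤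
      ENNReal.ofReal ε * LS (sf g c) ε := by
  classical
  obtain ⟨C, C0, hC⟩ := h.ch_lip (c := c)
  refine ⟨6 * C ^ 2 + 1, fun l δ hl hd => ?_⟩
  obtain ⟨n, hn⟩ := h.grid (c := c) hl hd
  have m0 := ms_pos n
  have l0 : 0 < l := by linarith
  set a := (μHE[2] (sf g c)).toReal with ha
  rcases lt_or_ge (a - (6 * C ^ 2 + 1) * δ) 0 with a0 | a0
  · refine Eventually.of_forall fun ε => ?_
    have : (a - (6 * C ^ 2 + 1) * δ) / (2 * l ^ 5) < 0 := div_neg_of_neg_of_pos a0 (by positivity)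
    rw [ENNReal.ofReal_of_nonpos (by linarith)]
    exact zero_le
  set I : Set ((Fin 3 × Bool) × Cell n) := {i | Flat (ch g c i.1) (Qw n i.2) l} with hI
  have hf : ∀ i : (Fin 3 × Bool) × Cell n, ∃ f : ℂ → ℂ, i ∈ I → ∀ u ∈ Qo n i.2, ∀ v ∈ Qo n i.2,
      dist (f u) (f v) ≤ l * dist (ch g c i.1 u) (ch g c i.1 v) ∧
        dist (ch g c i.1 u) (ch g c i.1 v) ≤ l * dist (f u) (f v) := fun i => by
    by_cases hi : i ∈ I
    · obtain ⟨α, β, γ, -, -, hf⟩ := hi
      refine ⟨T α β γ, fun _ u hu v hv => ?_⟩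
      rw [dist_eq_norm, dist_eq_norm, ← T_sub]
      exact hf u (Qo_w _ _ hu) v (Qo_w _ _ hv)
    · exact ⟨id, fun h => absurd h hi⟩
  choose f hf using hf
  refine lower_fam I (fun i => ch g c i.1) f (fun i => Qo n i.2)
    (fun i => (⋃ j ∈ {j | j ≠ i}, ch g c j.1 '' Qc n j.2) ∪ ch g c i.1 '' (Qc n i.2 \ Qo n i.2))
    hl (fun i u => h.ch_mem _ u) ?_ ?_ ?_ hf ?_ hd
  · intro i _ x hx hx'
    obtain ⟨j, u, hu, rfl⟩ := h.cover n hx
    by_cases hj : j = i
    · subst hj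
      exact Or.inr ⟨u, ⟨hu, fun k => hx' ⟨u, k, rfl⟩⟩, rfl⟩
    · exact Or.inl (mem_iUnion₂.2 ⟨j, hj, u, hu, rfl⟩)
  · intro i _ u hu
    refine (IsClosed.notMem_iff_infDist_pos (IsCompact.isClosed ?_) ?_).1 ?_
    · exact ((toFinite _).isCompact_biUnion fun j _ =>
        (box_compact _ _ _ _).image (h.ch_cont _)).union
        (((box_compact _ _ _ _).diff (obox_open _ _ _ _)).image (h.ch_cont _))
    · exact ⟨_, Or.inr ⟨⟨gp n i.2.1, gp n i.2.2⟩, ⟨⟨le_rfl, by dsimp only; linarith, le_rfl,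
        by dsimp only; linarith⟩, fun k => lt_irrefl _ k.1⟩, rfl⟩⟩
    · rintro (k | ⟨v, hv, e⟩)
      · obtain ⟨j, hj, v, hv, e⟩ := mem_iUnion₂.1 k
        exact hj (h.uniq hu hv e.symm).1.symm
      · exact hv.2 (h.ch_inj e ▸ hu)
  · intro i _ j _ u hu v hv e
    exact (h.uniq hu (obox_sub _ _ _ _ hv) e).1
  · have s1 : sf g c ⊆ (⋃ i ∈ I, ch g c i.1 '' Qo n i.2) ∪ ⋃ i : (Fin 3 × Bool) × Cell n,
        ch g c i.1 '' (if Flat (ch g c i.1) (Qw n i.2) l then Qc n i.2 \ Qo n i.2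
          else Qc n i.2) := by
      intro x hx
      obtain ⟨i, u, hu, rfl⟩ := h.cover n hx
      by_cases hi : Flat (ch g c i.1) (Qw n i.2) l
      · by_cases hu' : u ∈ Qo n i.2
        · exact Or.inl (mem_iUnion₂.2 ⟨i, hi, u, hu', rfl⟩)
        · exact Or.inr (mem_iUnion.2 ⟨i, u, by rw [if_pos hi]; exact ⟨hu, hu'⟩, rfl⟩)
      · exact Or.inr (mem_iUnion.2 ⟨i, u, by rw [if_neg hi]; exact hu, rfl⟩)
    have s2 : μHE[2] (⋃ i : (Fin 3 × Bool) × Cell n,
        ch g c i.1 '' (if Flat (ch g c i.1) (Qw n i.2) l then Qc n i.2 \ Qo n i.2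
          else Qc n i.2)) ≤ ENNReal.ofReal (6 * C ^ 2 * δ) := by
      refine (measure_iUnion_fintype_le _ _).trans ?_
      refine (Finset.sum_le_sum (g := fun i => ENNReal.ofReal
        (C ^ 2 * if Flat (ch g c i.1) (Qw n i.2) l then 0 else ms n ^ 2)) fun i _ => ?_).trans ?_
      · refine (ch_meas C0 hC _ _).trans ?_
        split_ifs
        · rw [Qc, Qo, box_diff_vol]
          simp
        · rw [Qc_vol, ENNReal.ofReal_mul (by positivity)]
      · rw [← ENNReal.ofReal_sum_of_nonneg (fun i _ => by split_ifs <;> positivity),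
          ← Finset.mul_sum]
        apply ENNReal.ofReal_le_ofReal
        have := mul_le_mul_of_nonneg_left hn (show 0 ≤ C ^ 2 by positivity)
        linarith
    by_contra hc
    have s3 := (measure_mono s1).trans ((measure_union_le _ _).trans
      (add_le_add (not_lt.1 hc) s2))
    rw [← ENNReal.ofReal_toReal h.finite, ← ha, ← ENNReal.ofReal_add a0 (by positivity),
      ENNReal.ofReal_le_ofReal_iff (by positivity)] at s3
    linarith

theorem IsG.main (h : IsG g) : Tendsto (fun ε : ℝ => ENNReal.ofReal ε * LS (sf g c) ε) (𝓝[>] 0)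
    (𝓝 (μHE[2] (sf g c) / 2)) := by
  obtain ⟨C, hC⟩ := h.upper (c := c)
  obtain ⟨C', hC'⟩ := h.lower (c := c)
  set a := (μHE[2] (sf g c)).toReal with ha
  have a0 : 0 ≤ a := ENNReal.toReal_nonneg
  have e : μHE[2] (sf g c) / 2 = ENNReal.ofReal (a / 2) := by
    rw [ENNReal.ofReal_div_of_pos (by norm_num), ha, ENNReal.ofReal_toReal h.finite]
    simp
  have t0 : ∀ᶠ t in 𝓝[>] (0 : ℝ), t < 1 := mem_nhdsWithin_of_mem_nhds (Iio_mem_nhds one_pos)
  rw [e, tendsto_order]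
  constructor
  · intro b hb
    have c1 : ContinuousAt
        (fun t : ℝ => ENNReal.ofReal ((a - C' * t) / (2 * (1 + t) ^ 5) - t)) 0 := by
      refine ENNReal.continuous_ofReal.continuousAt.comp (ContinuousAt.sub ?_ continuousAt_id)
      exact ContinuousAt.div (by fun_prop) (by fun_prop) (by norm_num)
    have t1 : ∀ᶠ t in 𝓝[>] (0 : ℝ), b < ENNReal.ofReal ((a - C' * t) / (2 * (1 + t) ^ 5) - t) :=
      mem_nhdsWithin_of_mem_nhds (c1.eventually (lt_mem_nhds (by simpa using hb)))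
    obtain ⟨t, t1, t2⟩ := (t1.and self_mem_nhdsWithin).exists
    have t2 : 0 < t := t2
    filter_upwards [hC' (1 + t) t (by linarith) t2] with ε k
    exact t1.trans_le k
  · intro b hb
    have c1 : Continuous (fun t : ℝ =>
        ENNReal.ofReal ((1 + t) ^ 4 * (2 * (1 + t) - 1) / 2 * a + C * t + t)) :=
      ENNReal.continuous_ofReal.comp (by fun_prop)
    have t1 : ∀ᶠ t in 𝓝[>] (0 : ℝ),
        ENNReal.ofReal ((1 + t) ^ 4 * (2 * (1 + t) - 1) / 2 * a + C * t + t) < b :=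
      mem_nhdsWithin_of_mem_nhds (c1.continuousAt.eventually (gt_mem_nhds (by
        convert hb using 2
        ring)))
    obtain ⟨t, ⟨t1, t3⟩, t2⟩ := ((t1.and t0).and self_mem_nhdsWithin).exists
    have t2 : 0 < t := t2
    obtain ⟨p, hp⟩ := hC (1 + t) t (by linarith) (by linarith) t2
    filter_upwards [hp.upper t2] with ε k
    exact k.trans_lt t1

end Pool.Agent.H.MP_523900_gt
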